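import Pool.Agent.Helper66.HG.MV

/-!
# Mean value theorem on intervals, and for families
-/

open MeasureTheory Set Filter Topology

namespace Pool.Agent.Helper66.HG

lemma cpow_half {n : ℕ} (hn : 1 ≤ n) (t : ℝ) :
    (n : ℂ) ^ (-((1 / 2 : ℂ) + t * Complex.I)) =
      ((1 / Real.sqrt n : ℝ) : ℂ) * Complex.exp (-(Real.log n * t : ℝ) * Complex.I) := by
  have hn0 : (n : ℂ) ≠ 0 := by
    have : n ≠ 0 := by omega
    exact_mod_cast this
  have hnpos : (0:ℝ) < n := by exact_mod_cast hn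
  rw [Complex.cpow_def_of_ne_zero hn0]
  have h1 : ((1 / Real.sqrt n : ℝ) : ℂ) = Complex.exp (-(Real.log n / 2 : ℝ)) := by
    rw [← Complex.ofReal_neg, ← Complex.ofReal_exp]
    congr 1
    rw [Real.exp_neg, Real.exp_half, Real.exp_log hnpos, one_div]
  rw [h1, ← Complex.exp_add]
  congr 1
  rw [← Complex.natCast_log]
  push_cast
  ring

lemma norm_sq_half {n : ℕ} (hn : 1 ≤ n) (z : ℂ) : ‖z * ((1 / Real.sqrt n : ℝ) : ℂ)‖ ^ 2 = ‖z‖ ^ 2 / n := by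
  have hnpos : (0:ℝ) < n := by exact_mod_cast hn
  rw [norm_mul, mul_pow, Complex.norm_real, Real.norm_eq_abs, sq_abs, div_pow, Real.sq_sqrt hnpos.le]
  ring

/-- Mean value theorem with the weight, `n^(-1/2 - it)`. -/
theorem mv_wtc {N : ℕ} (a : ℕ → ℂ) {W : ℝ} (hW : 0 < W) (τ : ℝ) :
    Integrable (fun t : ℝ => wt W (t - τ) *
      ‖∑ n ∈ Finset.Icc 1 N, a n * (n : ℂ) ^ (-((1 / 2 : ℂ) + t * Complex.I))‖ ^ 2) ∧
    ∫ t : ℝ, wt W (t - τ) *
      ‖∑ n ∈ Finset.Icc 1 N, a n * (n : ℂ) ^ (-((1 / 2 : ℂ) + t * Complex.I))‖ ^ 2 ≤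
      (2 * W + 8 * (N:ℝ) ^ 2 / W) * ∑ n ∈ Finset.Icc 1 N, ‖a n‖ ^ 2 / n := by
  have h := mv_wt (N := N) (fun n => a n * ((1 / Real.sqrt n : ℝ) : ℂ)) hW τ
  have e : ∀ t : ℝ, ∑ n ∈ Finset.Icc 1 N, a n * (n : ℂ) ^ (-((1 / 2 : ℂ) + t * Complex.I)) =
      ∑ n ∈ Finset.Icc 1 N, a n * ((1 / Real.sqrt n : ℝ) : ℂ) *
        Complex.exp (-(Real.log n * t : ℝ) * Complex.I) := by
    intro t
    refine Finset.sum_congr rfl fun n hn => ?_
    rw [cpow_half (Finset.mem_Icc.1 hn).1]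
    ring
  have e2 : ∑ n ∈ Finset.Icc 1 N, ‖a n * ((1 / Real.sqrt n : ℝ) : ℂ)‖ ^ 2 =
      ∑ n ∈ Finset.Icc 1 N, ‖a n‖ ^ 2 / n :=
    Finset.sum_congr rfl fun n hn => norm_sq_half (Finset.mem_Icc.1 hn).1 _
  simp_rw [e]
  rw [← e2]
  exact h

/-- Mean value theorem on an interval, length at most `T`, no logarithm. -/
theorem mv_int {N : ℕ} (a : ℕ → ℂ) {T : ℝ} (hT : 0 < T) (hN : (N:ℝ) ≤ T) (τ : ℝ) :
    ∫ t in Icc (τ - T) (τ + T),
      ‖∑ n ∈ Finset.Icc 1 N, a n * (n : ℂ) ^ (-((1 / 2 : ℂ) + t * Complex.I))‖ ^ 2 ≤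
      28 * T * ∑ n ∈ Finset.Icc 1 N, ‖a n‖ ^ 2 / n := by
  obtain ⟨h1, h2⟩ := mv_wtc (N := N) a hT τ
  set f : ℝ → ℝ := fun t => ‖∑ n ∈ Finset.Icc 1 N, a n * (n : ℂ) ^ (-((1 / 2 : ℂ) + t * Complex.I))‖ ^ 2
    with hf
  have hS : 0 ≤ ∑ n ∈ Finset.Icc 1 N, ‖a n‖ ^ 2 / (n:ℝ) := Finset.sum_nonneg fun n _ => by positivity
  have hw : ∀ t ∈ Icc (τ - T) (τ + T), f t ≤ Real.exp 1 * (wt T (t - τ) * f t) := by
    intro t ht
    have h3 : |t - τ| / T ≤ 1 := by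
      rw [div_le_one hT, abs_le]
      constructor <;> linarith [ht.1, ht.2]
    have h4 : 1 ≤ Real.exp 1 * wt T (t - τ) := by
      rw [wt, ← Real.exp_add]
      exact Real.one_le_exp (by linarith)
    have h5 : 0 ≤ f t := sq_nonneg _
    nlinarith
  have hcf : Continuous f := by
    simp only [hf]
    refine (continuous_norm.comp (continuous_finsetSum _ fun n hn => ?_)).pow 2
    have hn1 := (Finset.mem_Icc.1 hn).1
    have hn0 : (n : ℂ) ≠ 0 := by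
      have : n ≠ 0 := by omega
      exact_mod_cast this
    refine continuous_const.mul (Continuous.const_cpow (by fun_prop) (Or.inl hn0))
  calc ∫ t in Icc (τ - T) (τ + T), f t ≤ ∫ t in Icc (τ - T) (τ + T), Real.exp 1 * (wt T (t - τ) * f t) := by
        refine setIntegral_mono_on (hcf.continuousOn.integrableOn_Icc) ?_ measurableSet_Icc hw
        exact (h1.const_mul _).integrableOn
    _ ≤ ∫ t, Real.exp 1 * (wt T (t - τ) * f t) := by
        refine setIntegral_le_integral (h1.const_mul _) (Filter.Eventually.of_forall fun t => ?_)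
        have := wt_pos T (t - τ)
        positivity
    _ = Real.exp 1 * ∫ t, wt T (t - τ) * f t := integral_const_mul _ _
    _ ≤ Real.exp 1 * ((2 * T + 8 * (N:ℝ) ^ 2 / T) * ∑ n ∈ Finset.Icc 1 N, ‖a n‖ ^ 2 / n) :=
        mul_le_mul_of_nonneg_left h2 (Real.exp_pos 1).le
    _ ≤ 28 * T * ∑ n ∈ Finset.Icc 1 N, ‖a n‖ ^ 2 / n := by
        rw [← mul_assoc]
        refine mul_le_mul_of_nonneg_right ?_ hS
        have h6 : (N:ℝ) ^ 2 / T ≤ T := by
          rw [div_le_iff₀ hT]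
          have : (0:ℝ) ≤ N := by positivity
          nlinarith
        have h7 : 8 * (N:ℝ) ^ 2 / T = 8 * ((N:ℝ) ^ 2 / T) := by ring
        have h8 := Real.exp_one_lt_d9
        have h9 := Real.exp_pos 1
        rw [h7]
        nlinarith

/-- Mean value theorem for a family. -/
theorem mv_fam {ι : Type*} (s : Finset ι) (x : ι → ℂ) (ν : ι → ℕ) {N : ℕ}
    (hν : ∀ i ∈ s, ν i ∈ Finset.Icc 1 N) (F : ι → ℝ)
    (hF : ∀ i ∈ s, ((s.filter (fun j => ν j = ν i)).card : ℝ) ≤ F i)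
    {T : ℝ} (hT : 0 < T) (hN : (N:ℝ) ≤ T) (τ : ℝ) :
    ∫ t in Icc (τ - T) (τ + T),
      ‖∑ i ∈ s, x i * (ν i : ℂ) ^ (-((1 / 2 : ℂ) + t * Complex.I))‖ ^ 2 ≤
      28 * T * ∑ i ∈ s, F i * (‖x i‖ ^ 2 / ν i) := by
  classical
  set a : ℕ → ℂ := fun n => ∑ i ∈ s.filter (fun i => ν i = n), x i with ha
  have e : ∀ t : ℝ, ∑ i ∈ s, x i * (ν i : ℂ) ^ (-((1 / 2 : ℂ) + t * Complex.I)) =
      ∑ n ∈ Finset.Icc 1 N, a n * (n : ℂ) ^ (-((1 / 2 : ℂ) + t * Complex.I)) := by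
    intro t
    rw [← Finset.sum_fiberwise_of_maps_to hν]
    refine Finset.sum_congr rfl fun n _ => ?_
    rw [ha, Finset.sum_mul]
    refine Finset.sum_congr rfl fun i hi => ?_
    rw [(Finset.mem_filter.1 hi).2]
  simp_rw [e]
  refine (mv_int a hT hN τ).trans (mul_le_mul_of_nonneg_left ?_ (by positivity))
  rw [← Finset.sum_fiberwise_of_maps_to hν]
  refine Finset.sum_le_sum fun n _ => ?_
  have h1 : ‖a n‖ ^ 2 ≤ ((s.filter (fun i => ν i = n)).card : ℝ) *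
      ∑ i ∈ s.filter (fun i => ν i = n), ‖x i‖ ^ 2 := by
    have h2 : ‖a n‖ ≤ ∑ i ∈ s.filter (fun i => ν i = n), ‖x i‖ := norm_sum_le _ _
    refine (pow_le_pow_left₀ (norm_nonneg _) h2 2).trans ?_
    exact sq_sum_le_card_mul_sum_sq
  calc ‖a n‖ ^ 2 / n ≤ (((s.filter (fun i => ν i = n)).card : ℝ) *
      ∑ i ∈ s.filter (fun i => ν i = n), ‖x i‖ ^ 2) / n := by gcongr
    _ = ∑ i ∈ s.filter (fun i => ν i = n), ((s.filter (fun i => ν i = n)).card : ℝ) * (‖x i‖ ^ 2 / n) := by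
        rw [mul_div_assoc, Finset.sum_div, Finset.mul_sum]
    _ ≤ ∑ i ∈ s.filter (fun i => ν i = n), F i * (‖x i‖ ^ 2 / ν i) := by
        refine Finset.sum_le_sum fun i hi => ?_
        obtain ⟨his, hin⟩ := Finset.mem_filter.1 hi
        have := hF i his
        rw [hin] at this
        rw [hin]
        exact mul_le_mul_of_nonneg_right this (by positivity)

end Pool.Agent.Helper66.HG
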