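import Pool.Agent.Helper66.HG.SumA
import Pool.Agent.Helper66.HG.MVb

/-!
# Fourth moment of a Dirichlet polynomial of length at most the square root of T
-/

open MeasureTheory Set Filter Topology

namespace Pool.Agent.Helper66.HG

/-- Fourth moment of a Dirichlet polynomial of length `X`, `X² ≤ T`. -/
theorem fourth (e : ℕ → ℂ) {X : ℕ} {T : ℝ} (hT : 0 < T) (hX : (X:ℝ) ^ 2 ≤ T) (τ : ℝ) :
    ∫ t in Icc (τ - T) (τ + T),
      ‖∑ n ∈ Finset.Icc 1 X, e n * (n : ℂ) ^ (-((1 / 2 : ℂ) + t * Complex.I))‖ ^ 4 ≤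
      28 * T * (∑ n ∈ Finset.Icc 1 X, (n.divisors.card : ℝ) * (‖e n‖ ^ 2 / n)) ^ 2 := by
  classical
  set s : Finset (ℕ × ℕ) := Finset.Icc 1 X ×ˢ Finset.Icc 1 X with hs
  have hmem : ∀ i ∈ s, 1 ≤ i.1 ∧ i.1 ≤ X ∧ 1 ≤ i.2 ∧ i.2 ≤ X := by
    intro i hi
    have := Finset.mem_product.1 hi
    have h1 := Finset.mem_Icc.1 this.1
    have h2 := Finset.mem_Icc.1 this.2
    exact ⟨h1.1, h1.2, h2.1, h2.2⟩
  have e1 : ∀ t : ℝ, ‖∑ n ∈ Finset.Icc 1 X, e n * (n : ℂ) ^ (-((1 / 2 : ℂ) + t * Complex.I))‖ ^ 4 =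
      ‖∑ i ∈ s, (e i.1 * e i.2) * ((i.1 * i.2 : ℕ) : ℂ) ^ (-((1 / 2 : ℂ) + t * Complex.I))‖ ^ 2 := by
    intro t
    have : ∑ i ∈ s, (e i.1 * e i.2) * ((i.1 * i.2 : ℕ) : ℂ) ^ (-((1 / 2 : ℂ) + t * Complex.I)) =
        (∑ n ∈ Finset.Icc 1 X, e n * (n : ℂ) ^ (-((1 / 2 : ℂ) + t * Complex.I))) *
          ∑ n ∈ Finset.Icc 1 X, e n * (n : ℂ) ^ (-((1 / 2 : ℂ) + t * Complex.I)) := by
      rw [Finset.sum_mul_sum, hs, Finset.sum_product]
      refine Finset.sum_congr rfl fun m _ => Finset.sum_congr rfl fun n _ => ?_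
      rw [Nat.cast_mul, Complex.natCast_mul_natCast_cpow]
      ring
    rw [this, norm_mul]
    ring
  simp_rw [e1]
  have h1 := mv_fam s (fun i => e i.1 * e i.2) (fun i => i.1 * i.2) (N := X ^ 2) (fun i hi => ?_)
    (fun i => (i.1.divisors.card : ℝ) * i.2.divisors.card) (fun i hi => ?_) hT (by exact_mod_cast hX) τ
  · refine h1.trans (mul_le_mul_of_nonneg_left (le_of_eq ?_) (by positivity))
    rw [pow_two (∑ n ∈ Finset.Icc 1 X, _), Finset.sum_mul_sum, hs, Finset.sum_product]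
    refine Finset.sum_congr rfl fun m _ => Finset.sum_congr rfl fun n _ => ?_
    rw [norm_mul]
    push_cast
    ring
  · obtain ⟨h1, h2, h3, h4⟩ := hmem i hi
    rw [Finset.mem_Icc]
    refine ⟨Nat.mul_pos h1 h3, ?_⟩
    rw [pow_two]
    exact Nat.mul_le_mul h2 h4
  · obtain ⟨h1, h2, h3, h4⟩ := hmem i hi
    have h5 : (s.filter (fun j => j.1 * j.2 = i.1 * i.2)).card ≤ (i.1 * i.2).divisors.card := by
      refine Finset.card_le_card_of_injOn (fun j => j.1) (fun j hj => ?_) ?_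
      · have hj' := (Finset.mem_filter.1 hj).2
        have : 0 < i.1 * i.2 := Nat.mul_pos h1 h3
        exact Finset.mem_coe.2 (Nat.mem_divisors.2 ⟨⟨j.2, hj'.symm⟩, this.ne'⟩)
      · intro j hj k hk hjk
        have hj1 := Finset.mem_filter.1 (Finset.mem_coe.1 hj)
        have hk1 := Finset.mem_filter.1 (Finset.mem_coe.1 hk)
        have hpos := (hmem j hj1.1).1
        have h6 : j.1 * j.2 = k.1 * k.2 := hj1.2.trans hk1.2.symm
        simp only at hjk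
        rw [← hjk] at h6
        exact Prod.ext hjk (Nat.eq_of_mul_eq_mul_left hpos h6)
    have h7 : (i.1 * i.2).divisors.card ≤ i.1.divisors.card * i.2.divisors.card := by
      rw [Nat.divisors_mul]
      exact Finset.card_mul_le
    exact_mod_cast h5.trans h7

/-- BM4 with the sum of `d(n) (1 * a)(n)^2 / n` as bound. -/
theorem bm4_sum (a : ℕ → ℝ) (c : ℕ → ℂ) (hc : ∀ n, ‖c n‖ ≤ 1) {X : ℕ} {T : ℝ} (hT : 0 < T)
    (hX : (X:ℝ) ^ 2 ≤ T) (τ : ℝ) :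
    ∫ t in Icc (τ - T) (τ + T),
      ‖∑ n ∈ Finset.Icc 1 X, (c n * (lamA a n : ℂ)) * (n : ℂ) ^ (-((1 / 2 : ℂ) + t * Complex.I))‖ ^ 4 ≤
      28 * T * (∑ n ∈ Finset.Icc 1 X, (n.divisors.card : ℝ) * lamA a n ^ 2 / n) ^ 2 := by
  refine (fourth (fun n => c n * (lamA a n : ℂ)) hT hX τ).trans ?_
  refine mul_le_mul_of_nonneg_left (pow_le_pow_left₀ (Finset.sum_nonneg fun n _ => by positivity) ?_ 2)
    (by positivity)
  refine Finset.sum_le_sum fun n _ => ?_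
  rw [norm_mul, mul_pow, Complex.norm_real, Real.norm_eq_abs, sq_abs, mul_div_assoc (n.divisors.card : ℝ)]
  refine mul_le_mul_of_nonneg_left (α := ℝ) ?_ (Nat.cast_nonneg _)
  have hn : (0:ℝ) ≤ n := Nat.cast_nonneg n
  refine div_le_div_of_nonneg_right ?_ hn
  have : ‖c n‖ ^ 2 ≤ 1 := pow_le_one₀ (norm_nonneg _) (hc n)
  nlinarith [sq_nonneg (lamA a n)]

end Pool.Agent.Helper66.HG
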