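import Pool.Agent.Helper66.HG.MVb

/-!
# RM4: products of prime sums
-/

open MeasureTheory Set Filter Topology

namespace Pool.Agent.Helper66.HG

variable {ι : Type*} [Fintype ι] [DecidableEq ι]

private lemma fiber_card (A : ι → Finset ℕ) (hA : ∀ j, ∀ p ∈ A j, p.Prime)
    (f : ι → ℕ) (hf : f ∈ Fintype.piFinset A) :
    (((Fintype.piFinset A).filter (fun g => ∏ j, g j = ∏ j, f j)).card : ℝ) ≤
      (Fintype.card ι : ℝ) ^ (Fintype.card ι) := by
  have hfp : ∀ j, (f j).Prime := fun j => hA j _ (Fintype.mem_piFinset.1 hf j)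
  have hne : ∏ j, f j ≠ 0 := Finset.prod_ne_zero_iff.2 fun j _ => (hfp j).ne_zero
  have hsub : (Fintype.piFinset A).filter (fun g => ∏ j, g j = ∏ j, f j) ⊆
      Fintype.piFinset (fun _ : ι => (∏ j, f j).primeFactors) := by
    intro g hg
    obtain ⟨hgA, hgp⟩ := Finset.mem_filter.1 hg
    rw [Fintype.mem_piFinset]
    intro j
    rw [Nat.mem_primeFactors]
    refine ⟨hA j _ (Fintype.mem_piFinset.1 hgA j), ?_, hne⟩
    rw [← hgp]
    exact Finset.dvd_prod_of_mem _ (Finset.mem_univ j)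
  have hc : (∏ j, f j).primeFactors.card ≤ Fintype.card ι := by
    have h1 : (∏ j, f j).primeFactors ⊆ Finset.univ.image f := by
      intro p hp
      obtain ⟨hpp, hpd, _⟩ := Nat.mem_primeFactors.1 hp
      obtain ⟨j, _, hj⟩ := (Prime.dvd_finsetProd_iff hpp.prime _).1 hpd
      rw [Finset.mem_image]
      exact ⟨j, Finset.mem_univ _, ((Nat.prime_dvd_prime_iff_eq hpp (hfp j)).1 hj).symm⟩
    calc _ ≤ (Finset.univ.image f).card := Finset.card_le_card h1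
      _ ≤ (Finset.univ : Finset ι).card := Finset.card_image_le
      _ = Fintype.card ι := Finset.card_univ
  have h2 : ((Fintype.piFinset A).filter (fun g => ∏ j, g j = ∏ j, f j)).card ≤
      (Fintype.card ι) ^ (Fintype.card ι) := by
    refine (Finset.card_le_card hsub).trans ?_
    rw [Fintype.card_piFinset]
    simp only [Finset.prod_const, Finset.card_univ]
    exact Nat.pow_le_pow_left hc _
  exact_mod_cast h2

/-- Mean square of a product of prime sums, length at most `T`. -/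
theorem rm (A : ι → Finset ℕ) (hA : ∀ j, ∀ p ∈ A j, p.Prime) (w : ι → ℕ → ℂ)
    {T : ℝ} (hT : 0 < T) (hN : ∀ f ∈ Fintype.piFinset A, ((∏ j, f j : ℕ) : ℝ) ≤ T) (τ : ℝ) :
    ∫ t in Icc (τ - T) (τ + T),
      ‖∏ j, ∑ p ∈ A j, w j p * (p : ℂ) ^ (-((1 / 2 : ℂ) + t * Complex.I))‖ ^ 2 ≤
      28 * T * ((Fintype.card ι : ℝ) ^ (Fintype.card ι) * ∏ j, ∑ p ∈ A j, ‖w j p‖ ^ 2 / p) := by
  classical
  have e : ∀ t : ℝ, ∏ j, ∑ p ∈ A j, w j p * (p : ℂ) ^ (-((1 / 2 : ℂ) + t * Complex.I)) =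
      ∑ f ∈ Fintype.piFinset A, (∏ j, w j (f j)) *
        ((∏ j, f j : ℕ) : ℂ) ^ (-((1 / 2 : ℂ) + t * Complex.I)) := by
    intro t
    rw [Finset.prod_univ_sum]
    refine Finset.sum_congr rfl fun f _ => ?_
    rw [Finset.prod_mul_distrib]
    congr 1
    rw [Nat.cast_prod]
    have : ∀ s : Finset ι, ∏ j ∈ s, ((f j : ℂ)) ^ (-((1 / 2 : ℂ) + t * Complex.I)) =
        (∏ j ∈ s, (f j : ℂ)) ^ (-((1 / 2 : ℂ) + t * Complex.I)) := by
      intro s
      induction s using Finset.induction_on with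
      | empty => simp
      | insert a s ha ih =>
        rw [Finset.prod_insert ha, Finset.prod_insert ha, ih, ← Nat.cast_prod,
          Complex.natCast_mul_natCast_cpow]
    exact this _
  simp_rw [e]
  have h1 := mv_fam (Fintype.piFinset A) (fun f => ∏ j, w j (f j)) (fun f => ∏ j, f j) (N := ⌊T⌋₊)
    (fun f hf => ?_) (fun _ => (Fintype.card ι : ℝ) ^ (Fintype.card ι)) (fun f hf => fiber_card A hA f hf)
    hT (Nat.floor_le hT.le) τ
  · refine h1.trans (mul_le_mul_of_nonneg_left (le_of_eq ?_) (by positivity))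
    rw [Finset.prod_univ_sum, ← Finset.mul_sum]
    congr 1
    refine Finset.sum_congr rfl fun f _ => ?_
    rw [norm_prod, ← Finset.prod_pow, Nat.cast_prod, Finset.prod_div_distrib]
  · rw [Finset.mem_Icc]
    refine ⟨?_, Nat.le_floor (hN f hf)⟩
    have : ∏ j, f j ≠ 0 :=
      Finset.prod_ne_zero_iff.2 fun j _ => (hA j _ (Fintype.mem_piFinset.1 hf j)).ne_zero
    omega

/-- RM4: `∫ (∏ |P_j|)^4 |P_i|^2 ≤ C T` when `(∏ U_j)^2 U_i ≤ T`. -/
theorem rm4 {k : ℕ} (A : Fin k → Finset ℕ) (hA : ∀ j, ∀ p ∈ A j, p.Prime) (w : Fin k → ℕ → ℂ)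
    (i : Fin k) (U : Fin k → ℝ) (hU : ∀ j, ∀ p ∈ A j, (p : ℝ) ≤ U j)
    {T : ℝ} (hT : 0 < T) (hN : (∏ j, U j) ^ 2 * U i ≤ T) (τ : ℝ) :
    ∫ t in Icc (τ - T) (τ + T),
      (∏ j, ‖∑ p ∈ A j, w j p * (p : ℂ) ^ (-((1 / 2 : ℂ) + t * Complex.I))‖) ^ 4 *
        ‖∑ p ∈ A i, w i p * (p : ℂ) ^ (-((1 / 2 : ℂ) + t * Complex.I))‖ ^ 2 ≤
      28 * T * ((2 * k + 1 : ℝ) ^ (2 * k + 1) *
        ((∏ j, ∑ p ∈ A j, ‖w j p‖ ^ 2 / p) ^ 2 * ∑ p ∈ A i, ‖w i p‖ ^ 2 / p)) := by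
  set B : (Fin k ⊕ (Fin k ⊕ Unit)) → Finset ℕ := Sum.elim A (Sum.elim A (fun _ => A i)) with hB
  set v : (Fin k ⊕ (Fin k ⊕ Unit)) → ℕ → ℂ := Sum.elim w (Sum.elim w (fun _ => w i)) with hv
  have hBp : ∀ j, ∀ p ∈ B j, p.Prime := by
    rintro (j | j | j)
    · exact hA j
    · exact hA j
    · exact hA i
  have h := rm B hBp v hT ?_ τ
  · have hc : Fintype.card (Fin k ⊕ (Fin k ⊕ Unit)) = 2 * k + 1 := by
      simp
      ring
    rw [hc] at h
    simp only [Fintype.prod_sum_type, hB, hv, Sum.elim_inl, Sum.elim_inr,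
      Finset.univ_unique, Finset.prod_singleton] at h
    refine le_trans (le_of_eq ?_) (h.trans (le_of_eq ?_))
    · refine integral_congr_ae (Filter.Eventually.of_forall fun t => ?_)
      simp only [norm_mul, norm_prod]
      ring
    · push_cast
      ring
  · intro f hf
    rw [Fintype.mem_piFinset] at hf
    have h1 : ∀ g : Fin k → ℕ, (∀ j, g j ∈ A j) → (∏ j, (g j : ℝ)) ≤ ∏ j, U j := fun g hg =>
      Finset.prod_le_prod (fun _ _ => Nat.cast_nonneg _) fun j _ => hU j _ (hg j)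
    have h2 := h1 (fun j => f (Sum.inl j)) (fun j => hf (Sum.inl j))
    have h3 := h1 (fun j => f (Sum.inr (Sum.inl j))) (fun j => hf (Sum.inr (Sum.inl j)))
    have h4 : ((f (Sum.inr (Sum.inr ())) : ℕ) : ℝ) ≤ U i := hU i _ (hf (Sum.inr (Sum.inr ())))
    have e7 : ((∏ j, f j : ℕ) : ℝ) = (∏ j, (f (Sum.inl j) : ℝ)) *
        (∏ j, (f (Sum.inr (Sum.inl j)) : ℝ)) * (f (Sum.inr (Sum.inr ())) : ℝ) := by
      rw [Nat.cast_prod, Fintype.prod_sum_type, Fintype.prod_sum_type, mul_assoc]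
      simp
    refine le_trans ?_ hN
    · rw [e7, pow_two]
      have h5 : (0:ℝ) ≤ ∏ j, (f (Sum.inl j) : ℝ) := Finset.prod_nonneg fun _ _ => Nat.cast_nonneg _
      have h6 : (0:ℝ) ≤ ∏ j, (f (Sum.inr (Sum.inl j)) : ℝ) := Finset.prod_nonneg fun _ _ => Nat.cast_nonneg _
      exact mul_le_mul (mul_le_mul h2 h3 h6 (h5.trans h2)) h4 (Nat.cast_nonneg _)
        (mul_nonneg (h5.trans h2) (h5.trans h2))

end Pool.Agent.Helper66.HG
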