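import Pool.Agent.Helper66.HG.Cell
import Pool.Agent.Helper66.HG.BM
import Pool.Agent.Helper66.HG.RM
import Pool.Agent.Helper69.HG.Stm

/-!
# Hall gaps: blocks BM4, RM4 and N6
-/

open Finset MeasureTheory Set Filter Topology Pool.Agent.Helper69.HG

namespace Pool.Agent.Helper66.HG

private lemma geo (b J : ℕ) : ∑ j ∈ Finset.range J, Real.exp (-(((b + j : ℕ) : ℝ) / 2)) ≤ 3 * Real.exp (-((b : ℝ) / 2)) := by
  have h1 : Real.exp (-(1 / 2 : ℝ)) ≤ 2 / 3 := by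
    rw [Real.exp_neg, inv_le_comm₀ (Real.exp_pos _) (by norm_num)]
    have := Real.add_one_le_exp (1 / 2 : ℝ)
    norm_num at this ⊢
    linarith
  have h2 : ∀ j ∈ Finset.range J, Real.exp (-(((b + j : ℕ) : ℝ) / 2)) ≤ Real.exp (-((b : ℝ) / 2)) * (2 / 3) ^ j := by
    intro j _
    have e : Real.exp (-(((b + j : ℕ) : ℝ) / 2)) = Real.exp (-((b : ℝ) / 2)) * Real.exp (-(1 / 2 : ℝ)) ^ j := by
      rw [← Real.exp_nat_mul, ← Real.exp_add]
      congr 1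
      push_cast
      ring
    rw [e]
    gcongr
  refine (Finset.sum_le_sum h2).trans ?_
  rw [← Finset.mul_sum, mul_comm]
  refine mul_le_mul_of_nonneg_right ?_ (Real.exp_pos _).le
  have h3 := (summable_geometric_of_lt_one (by norm_num : (0:ℝ) ≤ 2 / 3) (by norm_num)).sum_le_tsum
    (Finset.range J) (fun j _ => by positivity)
  rw [tsum_geometric_of_lt_one (by norm_num) (by norm_num)] at h3
  norm_num at h3 ⊢
  linarith

/-- The sum of `d(n) λ(n)^2 / n` for a mollifier with the cell properties. -/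
theorem sum_CM {T ε : ℝ} {b : ℕ} {a : ℕ → ℝ} (hT : 1 < T) (hε : 0 < ε) (h : IsCM T ε b a) (N : ℕ) :
    ∑ n ∈ Finset.Icc 1 N, (n.divisors.card : ℝ) * lamA a n ^ 2 / n ≤
      Real.exp (Real.exp (CR * 6) * (3 * Real.exp (-((b : ℝ) / 2)))) *
        Real.exp (CR * ∑ p ∈ (Finset.Icc 1 N).filter (fun p : ℕ => p.Prime ∧ T ^ ε < p), 1 / (p:ℝ)) := by
  have h1 := sum_lamA (N := N) (J := (Finset.Icc 1 N).sup (cellOf T ε) + 1) (Λ := 6) (IsCM.cellFn hT hε h)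
    (fun p hp _ _ => Nat.lt_succ_of_le (Finset.le_sup (f := cellOf T ε) hp))
    (fun j _ => cell_sum hT hε j _ (fun p hp => by
      obtain ⟨_, hp1, hp2, hp3⟩ := Finset.mem_filter.1 hp
      rw [← hp3]
      exact inCell_cellOf hT hε hp1 hp2))
  refine h1.trans (mul_le_mul_of_nonneg_right (Real.exp_le_exp.2 ?_) (Real.exp_pos _).le)
  exact mul_le_mul_of_nonneg_left (geo b _) (Real.exp_pos _).le

private lemma DP_eq (X : ℕ) (c : ℕ → ℂ) (t : ℝ) :
    DP X c t = ∑ n ∈ Finset.Icc 1 X, c n * (n : ℂ) ^ (-((1 / 2 : ℂ) + t * Complex.I)) := by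
  unfold DP
  refine Finset.sum_congr rfl fun n _ => ?_
  rw [mul_comm Complex.I (t : ℂ)]

private lemma cont_sum {ι : Type*} (s : Finset ι) (ν : ι → ℕ) (hν : ∀ i ∈ s, ν i ≠ 0) (c : ι → ℂ) :
    Continuous (fun t : ℝ => ∑ i ∈ s, c i * (ν i : ℂ) ^ (-((1 / 2 : ℂ) + t * Complex.I))) := by
  refine continuous_finsetSum _ fun n hn => ?_
  have hn0 : (ν n : ℂ) ≠ 0 := by exact_mod_cast hν n hn
  exact continuous_const.mul (Continuous.const_cpow (by fun_prop) (Or.inl hn0))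

private lemma int_le {f : ℝ → ℝ} (hf : Continuous f) (h0 : ∀ t, 0 ≤ f t) {T : ℝ} (hT : 0 < T) :
    ∫ t in T..(2 * T), f t ≤ ∫ t in Set.Icc (3 / 2 * T - T) (3 / 2 * T + T), f t := by
  rw [intervalIntegral.integral_of_le (by linarith)]
  refine setIntegral_mono_set (hf.continuousOn.integrableOn_Icc) (Filter.Eventually.of_forall fun t => h0 t) ?_
  refine LE.le.eventuallyLE ?_
  intro t ht
  exact ⟨by linarith [ht.1], by linarith [ht.2]⟩

/-- Block BM4. -/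
theorem bm4 : BM4 := by
  refine ⟨0, fun b _ => ⟨1, one_pos, fun ε hε _ => ?_⟩⟩
  set K := Real.exp (Real.exp (CR * 6) * (3 * Real.exp (-((b : ℝ) / 2)))) * Real.exp (CR * (1 / ε)) with hK
  have hKpos : 0 < K := by positivity
  refine ⟨28 * K ^ 2, 16, by positivity, fun T hT a ha c hc => ?_⟩
  have hT1 : 1 < T := by linarith
  have hTpos : 0 < T := by linarith
  set X := ⌊T ^ (1 / 2 : ℝ)⌋₊ with hX
  have hXle : (X:ℝ) ≤ T ^ (1 / 2 : ℝ) := Nat.floor_le (by positivity)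
  have hX2 : (X:ℝ) ^ 2 ≤ T := by
    calc (X:ℝ) ^ 2 ≤ (T ^ (1 / 2 : ℝ)) ^ 2 := pow_le_pow_left₀ (Nat.cast_nonneg _) hXle 2
      _ = T := by
        rw [← Real.rpow_natCast, ← Real.rpow_mul hTpos.le]
        norm_num
  have hX1 : 1 ≤ X := Nat.le_floor (by
    push_cast
    exact Real.one_le_rpow hT1.le (by norm_num))
  have hL : 2 * Real.log 4 ≤ Real.log T := by
    have : Real.log 16 = 2 * Real.log 4 := by
      rw [show (16:ℝ) = 4 ^ 2 by norm_num, Real.log_pow]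
      norm_num
    rw [← this]
    exact Real.log_le_log (by norm_num) hT
  have hLpos : 0 < Real.log T := Real.log_pos hT1
  have hS : ∑ n ∈ Finset.Icc 1 X, (n.divisors.card : ℝ) * lamA a n ^ 2 / n ≤ K := by
    refine (sum_CM hT1 hε ha X).trans ?_
    rw [hK]
    refine mul_le_mul_of_nonneg_left (Real.exp_le_exp.2 (mul_le_mul_of_nonneg_left ?_ CR_nonneg))
      (Real.exp_pos _).le
    have hE : 0 < ε * Real.log T := by positivity
    refine (mer_tail hX1 hE _ (fun p hp => ?_)).trans ?_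
    · obtain ⟨hp0, hp1, hp2⟩ := Finset.mem_filter.1 hp
      refine ⟨hp1, (Finset.mem_Icc.1 hp0).2, ?_⟩
      rw [← Real.log_rpow hTpos]
      exact Real.log_le_log (by positivity) hp2.le
    · rw [div_le_div_iff₀ hE hε]
      have h1 : Real.log X ≤ 1 / 2 * Real.log T := by
        rw [← Real.log_rpow hTpos]
        exact Real.log_le_log (by exact_mod_cast hX1) hXle
      have h2 : Real.log X + Real.log 4 ≤ Real.log T := by linarith
      nlinarith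
  have hS0 : 0 ≤ ∑ n ∈ Finset.Icc 1 X, (n.divisors.card : ℝ) * lamA a n ^ 2 / n :=
    Finset.sum_nonneg fun n _ => by positivity
  have hmain := bm4_sum a c hc hTpos hX2 (3 / 2 * T)
  have e1 : ∀ t : ℝ, ‖DP X (fun N => c N * (lam a N : ℂ)) t‖ ^ 4 =
      ‖∑ n ∈ Finset.Icc 1 X, (c n * (lamA a n : ℂ)) * (n : ℂ) ^ (-((1 / 2 : ℂ) + t * Complex.I))‖ ^ 4 := by
    intro t
    rw [DP_eq]
    rfl
  simp_rw [e1]
  refine (int_le ?_ (fun t => by positivity) hTpos).trans (hmain.trans ?_)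
  · exact (continuous_norm.comp (cont_sum _ _ (fun n hn => by
      have := (Finset.mem_Icc.1 hn).1
      omega) _)).pow 4
  · have h1 := pow_le_pow_left₀ hS0 hS 2
    have h2 : (0:ℝ) ≤ 28 * T := by linarith
    have h3 := mul_le_mul_of_nonneg_left h1 h2
    refine h3.trans (le_of_eq ?_)
    generalize K = K'
    ring

/-- Block RM4. -/
theorem rm4_block : RM4 := by
  obtain ⟨K₁, hK₁⟩ : ∃ K₁ : ℝ, K₁ = (65:ℝ) ^ 65 := ⟨_, rfl⟩
  obtain ⟨K₂, hK₂⟩ : ∃ K₂ : ℝ, K₂ = (320:ℝ) ^ 32 := ⟨_, rfl⟩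
  have hK₁p : 0 < K₁ := by
    rw [hK₁]
    exact pow_pos (by norm_num) _
  have hK₂p : 0 < K₂ := by
    rw [hK₂]
    exact pow_pos (by norm_num) _
  refine ⟨28 * (K₁ * K₂ ^ 2 * 320), 4, by positivity, fun T hT k i hi hsum j₀ => ?_⟩
  have hT1 : 1 < T := by linarith
  have hTpos : 0 < T := by linarith
  have hLpos : 0 < Real.log T := Real.log_pos hT1
  have hL4 : Real.log 4 ≤ Real.log T := Real.log_le_log (by norm_num) hT
  have hk : k ≤ 32 := by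
    have h1 : ∑ _j : Fin k, 2 ≤ ∑ j, i j := Finset.sum_le_sum fun j _ => (hi j).1
    simp at h1
    omega
  set A : Fin k → Finset ℕ := fun j => (Finset.Icc 1 ⌊T⌋₊).filter (fun p => p.Prime ∧ ixp T p = i j) with hA
  have hAp : ∀ j, ∀ p ∈ A j, p.Prime := fun j p hp => (Finset.mem_filter.1 hp).2.1
  have hU : ∀ j, ∀ p ∈ A j, (p : ℝ) ≤ T ^ ((i j : ℝ) / 160) := by
    intro j p hp
    obtain ⟨_, hpp, hpi⟩ := Finset.mem_filter.1 hp
    have hp0 : (0:ℝ) < p := by exact_mod_cast hpp.pos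
    have h1 : 160 * Real.log p / Real.log T ≤ i j := by
      rw [← hpi]
      exact Nat.le_ceil _
    rw [div_le_iff₀ hLpos] at h1
    rw [← Real.exp_log hp0, Real.rpow_def_of_pos hTpos]
    refine Real.exp_le_exp.2 ?_
    linarith
  have hN : (∏ j, T ^ ((i j : ℝ) / 160)) ^ 2 * T ^ ((i j₀ : ℝ) / 160) ≤ T := by
    rw [← Real.rpow_sum_of_pos hTpos, ← Real.rpow_natCast, ← Real.rpow_mul hTpos.le, ← Real.rpow_add hTpos]
    calc T ^ ((∑ j, (i j : ℝ) / 160) * ((2:ℕ):ℝ) + (i j₀ : ℝ) / 160) ≤ T ^ (1:ℝ) := by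
          refine Real.rpow_le_rpow_of_exponent_le hT1.le ?_
          rw [← Finset.sum_div]
          have h1 : (∑ j, (i j : ℝ)) ≤ 64 := by exact_mod_cast hsum
          have h2 : (i j₀ : ℝ) ≤ 32 := by exact_mod_cast (hi j₀).2
          push_cast
          linarith
      _ = T := Real.rpow_one T
  have hSj : ∀ j, ∑ p ∈ A j, ‖(1:ℂ)‖ ^ 2 / (p:ℝ) ≤ 320 := by
    intro j
    have hE : 0 < Real.log T / 160 := by positivity
    have hN1 : 1 ≤ ⌊T⌋₊ := Nat.le_floor (by push_cast; linarith)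
    have h1 := mer_tail hN1 hE (A j) (fun p hp => by
      obtain ⟨hp1, hpp, hpi⟩ := Finset.mem_filter.1 hp
      refine ⟨hpp, (Finset.mem_Icc.1 hp1).2, ?_⟩
      by_contra hc
      rw [not_le, lt_div_iff₀ (by norm_num)] at hc
      have h2 : ixp T p ≤ 1 := by
        unfold ixp
        refine Nat.ceil_le.2 ?_
        rw [div_le_iff₀ hLpos]
        push_cast
        linarith
      have := (hi j).1
      omega)
    simp only [norm_one, one_pow]
    refine h1.trans ?_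
    rw [div_le_iff₀ hE]
    have h3 : Real.log ⌊T⌋₊ ≤ Real.log T :=
      Real.log_le_log (by exact_mod_cast hN1) (Nat.floor_le hTpos.le)
    linarith
  have hSnn : ∀ j, 0 ≤ ∑ p ∈ A j, ‖(1:ℂ)‖ ^ 2 / (p:ℝ) := fun j => Finset.sum_nonneg fun p _ => by positivity
  have hmain := rm4 A hAp (fun _ _ => 1) j₀ (fun j => T ^ ((i j : ℝ) / 160)) hU hTpos hN (3 / 2 * T)
  have e1 : ∀ (j : Fin k) (t : ℝ), Pb T (i j) t =
      ∑ p ∈ A j, (1:ℂ) * (p : ℂ) ^ (-((1 / 2 : ℂ) + t * Complex.I)) := by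
    intro j t
    unfold Pb
    refine Finset.sum_congr rfl fun n _ => ?_
    rw [mul_comm Complex.I (t : ℂ), one_mul]
  simp_rw [e1]
  have hc : ∀ j, Continuous (fun t : ℝ => ∑ p ∈ A j, (1:ℂ) * (p : ℂ) ^ (-((1 / 2 : ℂ) + t * Complex.I))) :=
    fun j => cont_sum (A j) (fun p => p) (fun p hp => (hAp j p hp).ne_zero) (fun _ => 1)
  refine (int_le ?_ (fun t => by positivity) hTpos).trans (hmain.trans ?_)
  · exact ((continuous_finsetProd _ fun j _ => (hc j).norm).pow 4).mul ((hc j₀).norm.pow 2)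
  · have h1 : (2 * (k:ℝ) + 1) ^ (2 * k + 1) ≤ K₁ := by
      rw [hK₁]
      have h2 : (2 * (k:ℝ) + 1) ≤ 65 := by
        have : (k:ℝ) ≤ 32 := by exact_mod_cast hk
        linarith
      calc (2 * (k:ℝ) + 1) ^ (2 * k + 1) ≤ (65:ℝ) ^ (2 * k + 1) := pow_le_pow_left₀ (by positivity) h2 _
        _ ≤ (65:ℝ) ^ 65 := pow_le_pow_right₀ (by norm_num) (by omega)
    have h3 : ∏ j, ∑ p ∈ A j, ‖(1:ℂ)‖ ^ 2 / (p:ℝ) ≤ K₂ := by
      rw [hK₂]
      calc ∏ j, ∑ p ∈ A j, ‖(1:ℂ)‖ ^ 2 / (p:ℝ) ≤ ∏ _j : Fin k, (320:ℝ) :=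
            Finset.prod_le_prod (fun j _ => hSnn j) fun j _ => hSj j
        _ = (320:ℝ) ^ k := by simp
        _ ≤ (320:ℝ) ^ 32 := pow_le_pow_right₀ (by norm_num) hk
    have h4 : 0 ≤ ∏ j, ∑ p ∈ A j, ‖(1:ℂ)‖ ^ 2 / (p:ℝ) := Finset.prod_nonneg fun j _ => hSnn j
    have h5 := hSj j₀
    have h6 := hSnn j₀
    calc 28 * T * ((2 * (k:ℝ) + 1) ^ (2 * k + 1) *
        ((∏ j, ∑ p ∈ A j, ‖(1:ℂ)‖ ^ 2 / (p:ℝ)) ^ 2 * ∑ p ∈ A j₀, ‖(1:ℂ)‖ ^ 2 / (p:ℝ)))
        ≤ 28 * T * (K₁ * (K₂ ^ 2 * 320)) := by gcongr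
      _ = _ := by ring

/-- Block N6: the sum of `λ(m)^2 / m` over `2 ≤ m ≤ T^ε` is small. -/
theorem n6 : ∀ η : ℝ, 0 < η → ∃ b₀ : ℕ, ∀ b ≥ b₀, ∀ ε T : ℝ, 0 < ε → 1 < T → ∀ a : ℕ → ℝ, IsCM T ε b a →
    ∑ m ∈ Finset.Icc 2 ⌊T ^ ε⌋₊, lam a m ^ 2 / m ≤ η := by
  intro η hη
  have ht : Tendsto (fun b : ℕ => Real.exp (Real.exp (CR * 6) * (3 * Real.exp (-((b : ℝ) / 2)))) - 1) atTop (𝓝 0) := by
    have h1 : Tendsto (fun b : ℕ => Real.exp (-((b : ℝ) / 2))) atTop (𝓝 0) := by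
      refine Real.tendsto_exp_neg_atTop_nhds_zero.comp ?_
      exact tendsto_natCast_atTop_atTop.atTop_div_const (by norm_num)
    have h2 : Tendsto (fun b : ℕ => Real.exp (CR * 6) * (3 * Real.exp (-((b : ℝ) / 2)))) atTop (𝓝 0) := by
      have := (h1.const_mul 3).const_mul (Real.exp (CR * 6))
      simpa using this
    have h3 := (Real.continuous_exp.tendsto 0).comp h2
    have h4 := h3.sub_const 1
    simpa using h4
  obtain ⟨b₀, hb₀⟩ := Filter.eventually_atTop.1 (ht.eventually (gt_mem_nhds hη))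
  refine ⟨b₀, fun b hb ε T hε hT a ha => ?_⟩
  have hTpos : 0 < T := by linarith
  have h1 := sum_CM hT hε ha ⌊T ^ ε⌋₊
  have h2 : ∑ p ∈ (Finset.Icc 1 ⌊T ^ ε⌋₊).filter (fun p : ℕ => p.Prime ∧ T ^ ε < p), 1 / (p:ℝ) = 0 := by
    rw [Finset.sum_eq_zero]
    intro p hp
    obtain ⟨hp1, _, hp2⟩ := Finset.mem_filter.1 hp
    have h3 := (Finset.mem_Icc.1 hp1).2
    have h4 : (p:ℝ) ≤ T ^ ε := le_trans (by exact_mod_cast h3) (Nat.floor_le (by positivity))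
    linarith
  rw [h2, mul_zero, Real.exp_zero, mul_one] at h1
  have h5 := hb₀ b hb
  have hX1 : 1 ≤ ⌊T ^ ε⌋₊ := Nat.le_floor (by
    push_cast
    exact Real.one_le_rpow hT.le hε.le)
  have h6 : Finset.Icc 1 ⌊T ^ ε⌋₊ = insert 1 (Finset.Icc 2 ⌊T ^ ε⌋₊) := by
    ext k
    simp only [Finset.mem_Icc, Finset.mem_insert]
    omega
  rw [h6, Finset.sum_insert (by simp)] at h1
  have h7 : lamA a 1 = 1 := by
    unfold lamA
    simp [ha.one]
  have h8 : ∑ m ∈ Finset.Icc 2 ⌊T ^ ε⌋₊, lam a m ^ 2 / m ≤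
      ∑ n ∈ Finset.Icc 2 ⌊T ^ ε⌋₊, (n.divisors.card : ℝ) * lamA a n ^ 2 / n := by
    refine Finset.sum_le_sum fun n hn => ?_
    have hn2 := (Finset.mem_Icc.1 hn).1
    have h9 : (1:ℝ) ≤ n.divisors.card := by
      have : 0 < n.divisors.card := Finset.card_pos.2 ⟨1, Nat.one_mem_divisors.2 (by omega)⟩
      exact_mod_cast this
    have h10 : (0:ℝ) ≤ n := Nat.cast_nonneg n
    refine div_le_div_of_nonneg_right ?_ h10
    show lamA a n ^ 2 ≤ _
    nlinarith [sq_nonneg (lamA a n)]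
  rw [h7] at h1
  simp at h1
  linarith

end Pool.Agent.Helper66.HG
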