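import Pool.Agent.Helper66.HG.Lam

/-!
# Euler product bound and the sum of `d(n) lam(n)^2 / n`
-/

open Finset

namespace Pool.Agent.Helper66.HG

private lemma tsum_pp {x w : ℝ} (hx0 : 0 ≤ x) (hx : x ≤ 1 / 2) (hw : 0 ≤ w) :
    Summable (fun k : ℕ => if k = 0 then (1:ℝ) else w * ((k + 1) * x ^ k)) ∧
    ∑' k : ℕ, (if k = 0 then (1:ℝ) else w * ((k + 1) * x ^ k)) ≤ 1 + 6 * w * x := by
  have hx1 : ‖x‖ < 1 := by
    rw [Real.norm_of_nonneg hx0]
    linarith
  have h1 : HasSum (fun k : ℕ => (k:ℝ) * x ^ k) (x / (1 - x) ^ 2) := hasSum_coe_mul_geometric_of_norm_lt_one hx1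
  have h2 : HasSum (fun k : ℕ => x ^ k) (1 - x)⁻¹ := hasSum_geometric_of_norm_lt_one hx1
  have h3 : HasSum (fun k : ℕ => w * ((k:ℝ) * x ^ k + x ^ k)) (w * (x / (1 - x) ^ 2 + (1 - x)⁻¹)) :=
    (h1.add h2).mul_left w
  have h4 : HasSum (fun k : ℕ => if k = 0 then (1 - w) else (0:ℝ)) (1 - w) := by
    exact hasSum_ite_eq 0 (1 - w)
  have h5 := h3.add h4
  have h6 : (fun k : ℕ => w * ((k:ℝ) * x ^ k + x ^ k) + if k = 0 then (1 - w) else (0:ℝ)) =
      fun k : ℕ => if k = 0 then (1:ℝ) else w * ((k + 1) * x ^ k) := by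
    funext k
    by_cases hk : k = 0
    · subst hk
      simp
    · rw [if_neg hk, if_neg hk]
      ring
  rw [h6] at h5
  refine ⟨h5.summable, ?_⟩
  rw [h5.tsum_eq]
  have hpos : 0 < 1 - x := by linarith
  have h7 : x / (1 - x) ^ 2 + (1 - x)⁻¹ ≤ 1 + 6 * x := by
    have : x / (1 - x) ^ 2 + (1 - x)⁻¹ = 1 / (1 - x) ^ 2 := by
      field_simp
      ring
    rw [this, div_le_iff₀ (by positivity)]
    nlinarith [mul_nonneg hx0 hx0, mul_nonneg (mul_nonneg hx0 hx0) (by linarith : 0 ≤ 1 / 2 - x),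
      mul_nonneg hx0 (by linarith : 0 ≤ 1 / 2 - x), mul_nonneg (mul_nonneg hx0 hx0) hx0]
  nlinarith

/-- The multiplicative function `d(n) ∏_{p | n} W(p) / n`. -/
noncomputable def fW (W : ℕ → ℝ) (n : ℕ) : ℝ := (n.divisors.card : ℝ) * (∏ p ∈ n.primeFactors, W p) / n

private lemma fW_pp {W : ℕ → ℝ} {p : ℕ} (hp : p.Prime) (k : ℕ) :
    fW W (p ^ k) = if k = 0 then (1:ℝ) else W p * ((k + 1) * (1 / (p:ℝ)) ^ k) := by
  by_cases hk : k = 0
  · subst hk
    simp [fW]
  · rw [if_neg hk, fW, Nat.primeFactors_prime_pow hk hp, Finset.prod_singleton,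
      Nat.divisors_prime_pow hp, Finset.card_map, Finset.card_range]
    push_cast
    rw [div_pow, one_pow]
    ring

/-- Euler product bound. -/
theorem euler_le {W : ℕ → ℝ} (hW : ∀ p, 0 ≤ W p) (N : ℕ) :
    ∑ n ∈ Finset.Icc 1 N, fW W n ≤
      Real.exp (6 * ∑ p ∈ (Finset.Icc 1 N).filter Nat.Prime, W p / p) := by
  have h1 : fW W 1 = 1 := by simp [fW]
  have hnn : ∀ n, 0 ≤ fW W n := fun n => by
    unfold fW
    have := Finset.prod_nonneg (s := n.primeFactors) (f := W) fun p _ => hW p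
    positivity
  have hmul : ∀ {m n : ℕ}, Nat.Coprime m n → fW W (m * n) = fW W m * fW W n := by
    intro m n hmn
    rcases Nat.eq_zero_or_pos m with hm | hm
    · subst hm; simp [fW]
    rcases Nat.eq_zero_or_pos n with hn | hn
    · subst hn; simp [fW]
    unfold fW
    rw [Nat.Coprime.card_divisors_mul hmn, Nat.Coprime.primeFactors_mul hmn,
      Finset.prod_union hmn.disjoint_primeFactors]
    push_cast
    have hm' : (m:ℝ) ≠ 0 := by positivity
    have hn' : (n:ℝ) ≠ 0 := by positivity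
    field_simp
  have hxp : ∀ {p : ℕ}, p.Prime → 0 ≤ 1 / (p:ℝ) ∧ 1 / (p:ℝ) ≤ 1 / 2 := by
    intro p hp
    have : (2:ℝ) ≤ p := by exact_mod_cast hp.two_le
    exact ⟨by positivity, one_div_le_one_div_of_le (by norm_num) this⟩
  have hsum : ∀ {p : ℕ}, p.Prime → Summable (fun n : ℕ => ‖fW W (p ^ n)‖) := by
    intro p hp
    have := (tsum_pp (hxp hp).1 (hxp hp).2 (hW p)).1
    refine this.congr fun k => ?_
    rw [Real.norm_of_nonneg (hnn _), fW_pp hp]
  obtain ⟨hs, ht⟩ := EulerProduct.summable_and_hasSum_factoredNumbers_prod_filter_prime_tsum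
    h1 hmul hsum (Finset.Icc 1 N)
  have hsub : ∀ n ∈ Finset.Icc 1 N, n ∈ Nat.factoredNumbers (Finset.Icc 1 N) := by
    intro n hn
    have hn' := Finset.mem_Icc.1 hn
    rw [Nat.mem_factoredNumbers']
    intro p hp hpn
    rw [Finset.mem_Icc]
    exact ⟨hp.one_lt.le, (Nat.le_of_dvd (by omega) hpn).trans hn'.2⟩
  have h2 : ∑ n ∈ Finset.Icc 1 N, fW W n ≤
      ∏ p ∈ (Finset.Icc 1 N).filter Nat.Prime, ∑' k : ℕ, fW W (p ^ k) := by
    rw [← ht.tsum_eq]
    have h3 : ∑ n ∈ Finset.Icc 1 N, fW W n =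
        ∑ m ∈ (Finset.Icc 1 N).attach.map ⟨fun x => (⟨x.1, hsub x.1 x.2⟩ : Nat.factoredNumbers (Finset.Icc 1 N)),
          fun x y hxy => Subtype.ext (congrArg (fun z => z.1) hxy)⟩, fW W m := by
      rw [Finset.sum_map]
      exact (Finset.sum_attach _ (fun n => fW W n)).symm
    rw [h3]
    exact ht.summable.sum_le_tsum _ fun m _ => hnn _
  refine h2.trans ?_
  calc ∏ p ∈ (Finset.Icc 1 N).filter Nat.Prime, ∑' k : ℕ, fW W (p ^ k)
      ≤ ∏ p ∈ (Finset.Icc 1 N).filter Nat.Prime, Real.exp (6 * (W p / p)) := by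
        refine Finset.prod_le_prod (fun p _ => tsum_nonneg fun k => hnn _) fun p hp => ?_
        have hpp := (Finset.mem_filter.1 hp).2
        simp_rw [fW_pp hpp]
        refine (tsum_pp (hxp hpp).1 (hxp hpp).2 (hW p)).2.trans ?_
        have := Real.add_one_le_exp (6 * (W p / p))
        have e : 6 * W p * (1 / (p:ℝ)) = 6 * (W p / p) := by ring
        rw [e]
        linarith
    _ = _ := by rw [← Real.exp_sum, Finset.mul_sum]

variable {y : ℝ} {cell l : ℕ → ℕ} {J : ℕ}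

/-- Sum of `d(n) lam(n)^2 / n`. -/
theorem sum_lam {N : ℕ} {Λ : ℝ}
    (hΛ : ∀ j < J, ∑ p ∈ (Finset.Icc 1 N).filter (fun p : ℕ => p.Prime ∧ (p:ℝ) ≤ y ∧ cell p = j), 1 / (p:ℝ) ≤ Λ) :
    ∑ n ∈ Finset.Icc 1 N, (n.divisors.card : ℝ) * lam y cell l J n ^ 2 / n ≤
      Real.exp (Real.exp (24 * Real.exp 1 * Λ) * ∑ j ∈ Finset.range J, Real.exp (-(l j : ℝ))) *
        Real.exp (6 * ∑ p ∈ (Finset.Icc 1 N).filter (fun p : ℕ => p.Prime ∧ y < p), 1 / (p:ℝ)) := by
  set R := ∑ p ∈ (Finset.Icc 1 N).filter (fun p : ℕ => p.Prime ∧ y < p), 1 / (p:ℝ) with hR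
  have h1 : ∀ n ∈ Finset.Icc 1 N, (n.divisors.card : ℝ) * lam y cell l J n ^ 2 / n ≤
      ∑ B ∈ (Finset.range J).powerset, (∏ j ∈ B, Real.exp (-(l j : ℝ))) * fW (Wt y cell B) n := by
    intro n hn
    have hn1 := (Finset.mem_Icc.1 hn).1
    have h2 := lam_sq_le (y := y) (cell := cell) (l := l) (J := J) (n := n) (by omega)
    calc (n.divisors.card : ℝ) * lam y cell l J n ^ 2 / n ≤ (n.divisors.card : ℝ) *
          (∑ B ∈ (Finset.range J).powerset, (∏ j ∈ B, Real.exp (-(l j : ℝ))) *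
            ∏ p ∈ n.primeFactors, Wt y cell B p) / n := by gcongr
      _ = _ := by
        rw [Finset.mul_sum, Finset.sum_div]
        refine Finset.sum_congr rfl fun B _ => ?_
        rw [fW]
        ring
  have hB : ∀ B ∈ (Finset.range J).powerset,
      ∑ p ∈ (Finset.Icc 1 N).filter Nat.Prime, Wt y cell B p / p ≤ 4 * Real.exp 1 * (Λ * B.card) + R := by
    intro B hB
    have hBJ := Finset.mem_powerset.1 hB
    have e1 : ∀ p ∈ (Finset.Icc 1 N).filter Nat.Prime, Wt y cell B p / p ≤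
        4 * Real.exp 1 * (∑ j ∈ B, if ((p:ℝ) ≤ y ∧ cell p = j) then 1 / (p:ℝ) else 0) +
          (if y < (p:ℝ) then 1 / (p:ℝ) else 0) := by
      intro p hp
      unfold Wt
      by_cases hpy : (p:ℝ) ≤ y
      · rw [if_pos hpy, if_neg (not_lt.2 hpy), add_zero]
        by_cases hc : cell p ∈ B
        · rw [if_pos hc]
          have : ∑ j ∈ B, (if ((p:ℝ) ≤ y ∧ cell p = j) then 1 / (p:ℝ) else 0) = 1 / p := by
            rw [Finset.sum_eq_single (cell p)]
            · rw [if_pos ⟨hpy, rfl⟩]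
            · intro j _ hj
              rw [if_neg (fun h => hj h.2.symm)]
            · intro h
              exact absurd hc h
          rw [this]
          apply le_of_eq
          ring
        · rw [if_neg hc, zero_div]
          refine mul_nonneg (by positivity) (Finset.sum_nonneg fun j _ => ?_)
          split_ifs <;> positivity
      · rw [if_neg hpy, if_pos (not_le.1 hpy)]
        have : ∑ j ∈ B, (if ((p:ℝ) ≤ y ∧ cell p = j) then 1 / (p:ℝ) else 0) = 0 := by
          refine Finset.sum_eq_zero fun j _ => ?_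
          rw [if_neg (fun h => hpy h.1)]
        rw [this]
        simp
    refine (Finset.sum_le_sum e1).trans ?_
    rw [Finset.sum_add_distrib, ← Finset.mul_sum, Finset.sum_comm]
    have e2 : ∑ p ∈ (Finset.Icc 1 N).filter Nat.Prime, (if y < (p:ℝ) then 1 / (p:ℝ) else 0) = R := by
      rw [← Finset.sum_filter, Finset.filter_filter]
    have e3 : ∑ j ∈ B, ∑ p ∈ (Finset.Icc 1 N).filter Nat.Prime,
        (if ((p:ℝ) ≤ y ∧ cell p = j) then 1 / (p:ℝ) else 0) ≤ Λ * B.card := by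
      rw [mul_comm, ← nsmul_eq_mul]
      refine Finset.sum_le_card_nsmul _ _ _ fun j hj => ?_
      rw [← Finset.sum_filter, Finset.filter_filter]
      exact hΛ j (Finset.mem_range.1 (hBJ hj))
    rw [e2]
    have : 0 ≤ 4 * Real.exp 1 := by positivity
    nlinarith
  calc ∑ n ∈ Finset.Icc 1 N, (n.divisors.card : ℝ) * lam y cell l J n ^ 2 / n
      ≤ ∑ n ∈ Finset.Icc 1 N, ∑ B ∈ (Finset.range J).powerset,
          (∏ j ∈ B, Real.exp (-(l j : ℝ))) * fW (Wt y cell B) n := Finset.sum_le_sum h1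
    _ = ∑ B ∈ (Finset.range J).powerset, (∏ j ∈ B, Real.exp (-(l j : ℝ))) *
          ∑ n ∈ Finset.Icc 1 N, fW (Wt y cell B) n := by
        rw [Finset.sum_comm]
        refine Finset.sum_congr rfl fun B _ => by rw [Finset.mul_sum]
    _ ≤ ∑ B ∈ (Finset.range J).powerset, (∏ j ∈ B, Real.exp (-(l j : ℝ))) *
          (Real.exp (24 * Real.exp 1 * Λ) ^ B.card * Real.exp (6 * R)) := by
        refine Finset.sum_le_sum fun B hB' => mul_le_mul_of_nonneg_left ?_
          (Finset.prod_nonneg fun _ _ => (Real.exp_pos _).le)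
        refine (euler_le (fun p => Wt_nonneg B p) N).trans ?_
        rw [← Real.exp_nat_mul, ← Real.exp_add]
        refine Real.exp_le_exp.2 ?_
        have := hB B hB'
        nlinarith
    _ = (∏ j ∈ Finset.range J, (1 + Real.exp (24 * Real.exp 1 * Λ) * Real.exp (-(l j : ℝ)))) *
          Real.exp (6 * R) := by
        rw [Finset.prod_one_add, Finset.sum_mul]
        refine Finset.sum_congr rfl fun B _ => ?_
        rw [Finset.prod_mul_distrib, Finset.prod_const]
        ring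
    _ ≤ _ := by
        refine mul_le_mul_of_nonneg_right ?_ (Real.exp_pos _).le
        rw [Finset.mul_sum, Real.exp_sum]
        refine Finset.prod_le_prod (fun j _ => by positivity) fun j _ => ?_
        have := Real.add_one_le_exp (Real.exp (24 * Real.exp 1 * Λ) * Real.exp (-(l j : ℝ)))
        linarith

end Pool.Agent.Helper66.HG
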