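import Pool.Agent.Helper66.HG.EP2

/-!
# The sum of `d(n) (1 * a)(n)^2 / n`
-/

open Finset

namespace Pool.Agent.Helper66.HG

variable {a : ℕ → ℝ} {y : ℝ} {cell l : ℕ → ℕ} {J : ℕ}

/-- First order weight. -/
noncomputable def Ww (y : ℝ) (cell : ℕ → ℕ) (B : Finset ℕ) (p : ℕ) : ℝ :=
  if (p : ℝ) ≤ y then (if cell p ∈ B then 1 else 0) else 1

lemma Ww_nonneg (B : Finset ℕ) (p : ℕ) : 0 ≤ Ww y cell B p := by
  unfold Ww
  split_ifs
  · exact zero_le_one
  · exact le_rfl
  · exact zero_le_one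

lemma Gw_le (B : Finset ℕ) (p v : ℕ) (_hv : 1 ≤ v) :
    Gw y cell B p v ≤ Ww y cell B p * (((v:ℝ) + 1) ^ 2 * Real.exp (v / 2)) := by
  unfold Gw Ww
  split_ifs
  · rw [one_mul]
  · rw [zero_mul]
  · have h1 : (1:ℝ) ≤ Real.exp ((v:ℝ) / 2) := Real.one_le_exp (by positivity)
    have h2 : (1:ℝ) ≤ ((v:ℝ) + 1) ^ 2 := by
      have : (0:ℝ) ≤ v := Nat.cast_nonneg v
      nlinarith
    rw [one_mul]
    nlinarith

/-- Sum of `d(n) (1 * a)(n)^2 / n`. -/
theorem sum_lamA (h : CellFn a y cell l) {N : ℕ} {Λ : ℝ}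
    (hJ : ∀ p ∈ Finset.Icc 1 N, p.Prime → (p : ℝ) ≤ y → cell p < J)
    (hΛ : ∀ j < J, ∑ p ∈ (Finset.Icc 1 N).filter (fun p : ℕ => p.Prime ∧ (p:ℝ) ≤ y ∧ cell p = j), 1 / (p:ℝ) ≤ Λ) :
    ∑ n ∈ Finset.Icc 1 N, (n.divisors.card : ℝ) * lamA a n ^ 2 / n ≤
      Real.exp (Real.exp (CR * Λ) * ∑ j ∈ Finset.range J, Real.exp (-((l j : ℝ) / 2))) *
        Real.exp (CR * ∑ p ∈ (Finset.Icc 1 N).filter (fun p : ℕ => p.Prime ∧ y < p), 1 / (p:ℝ)) := by
  set R := ∑ p ∈ (Finset.Icc 1 N).filter (fun p : ℕ => p.Prime ∧ y < p), 1 / (p:ℝ) with hR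
  have hCR := CR_nonneg
  have h1 : ∀ n ∈ Finset.Icc 1 N, (n.divisors.card : ℝ) * lamA a n ^ 2 / n ≤
      ∑ B ∈ (Finset.range J).powerset, (∏ j ∈ B, Real.exp (-((l j : ℝ) / 2))) * fG (Gw y cell B) n := by
    intro n hn
    have hn' := Finset.mem_Icc.1 hn
    have h2 := lamA_sq_le (J := J) h (n := n) (by omega) (fun p hp hpy => by
      have hp' := Nat.mem_primeFactors.1 hp
      refine hJ p (Finset.mem_Icc.2 ⟨hp'.1.one_lt.le, ?_⟩) hp'.1 hpy
      exact (Nat.le_of_dvd (by omega) hp'.2.1).trans hn'.2)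
    calc (n.divisors.card : ℝ) * lamA a n ^ 2 / n ≤ (n.divisors.card : ℝ) *
          (∑ B ∈ (Finset.range J).powerset, (∏ j ∈ B, Real.exp (-((l j : ℝ) / 2))) *
            ∏ p ∈ n.primeFactors, Gw y cell B p (n.factorization p)) / n := by gcongr
      _ = _ := by
        rw [Finset.mul_sum, Finset.sum_div]
        refine Finset.sum_congr rfl fun B _ => ?_
        rw [fG]
        ring
  have hB : ∀ B ∈ (Finset.range J).powerset,
      ∑ p ∈ (Finset.Icc 1 N).filter Nat.Prime, Ww y cell B p / p ≤ Λ * B.card + R := by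
    intro B hB
    have hBJ := Finset.mem_powerset.1 hB
    have e1 : ∀ p ∈ (Finset.Icc 1 N).filter Nat.Prime, Ww y cell B p / p ≤
        (∑ j ∈ B, if ((p:ℝ) ≤ y ∧ cell p = j) then 1 / (p:ℝ) else 0) +
          (if y < (p:ℝ) then 1 / (p:ℝ) else 0) := by
      intro p hp
      unfold Ww
      by_cases hpy : (p:ℝ) ≤ y
      · rw [if_pos hpy, if_neg (not_lt.2 hpy), add_zero]
        by_cases hc : cell p ∈ B
        · rw [if_pos hc]
          have : ∑ j ∈ B, (if ((p:ℝ) ≤ y ∧ cell p = j) then 1 / (p:ℝ) else 0) = 1 / p := by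
            rw [Finset.sum_eq_single (cell p)]
            · rw [if_pos ⟨hpy, rfl⟩]
            · intro j _ hj
              rw [if_neg (fun h => hj h.2.symm)]
            · intro h
              exact absurd hc h
          rw [this]
        · rw [if_neg hc, zero_div]
          refine Finset.sum_nonneg fun j _ => ?_
          split_ifs <;> positivity
      · rw [if_neg hpy, if_pos (not_le.1 hpy)]
        have : ∑ j ∈ B, (if ((p:ℝ) ≤ y ∧ cell p = j) then 1 / (p:ℝ) else 0) = 0 := by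
          refine Finset.sum_eq_zero fun j _ => ?_
          rw [if_neg (fun h => hpy h.1)]
        rw [this]
        simp
    refine (Finset.sum_le_sum e1).trans ?_
    rw [Finset.sum_add_distrib, Finset.sum_comm]
    have e2 : ∑ p ∈ (Finset.Icc 1 N).filter Nat.Prime, (if y < (p:ℝ) then 1 / (p:ℝ) else 0) = R := by
      rw [← Finset.sum_filter, Finset.filter_filter]
    have e3 : ∑ j ∈ B, ∑ p ∈ (Finset.Icc 1 N).filter Nat.Prime,
        (if ((p:ℝ) ≤ y ∧ cell p = j) then 1 / (p:ℝ) else 0) ≤ Λ * B.card := by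
      rw [mul_comm, ← nsmul_eq_mul]
      refine Finset.sum_le_card_nsmul _ _ _ fun j hj => ?_
      rw [← Finset.sum_filter, Finset.filter_filter]
      exact hΛ j (Finset.mem_range.1 (hBJ hj))
    rw [e2]
    linarith
  calc ∑ n ∈ Finset.Icc 1 N, (n.divisors.card : ℝ) * lamA a n ^ 2 / n
      ≤ ∑ n ∈ Finset.Icc 1 N, ∑ B ∈ (Finset.range J).powerset,
          (∏ j ∈ B, Real.exp (-((l j : ℝ) / 2))) * fG (Gw y cell B) n := Finset.sum_le_sum h1
    _ = ∑ B ∈ (Finset.range J).powerset, (∏ j ∈ B, Real.exp (-((l j : ℝ) / 2))) *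
          ∑ n ∈ Finset.Icc 1 N, fG (Gw y cell B) n := by
        rw [Finset.sum_comm]
        refine Finset.sum_congr rfl fun B _ => by rw [Finset.mul_sum]
    _ ≤ ∑ B ∈ (Finset.range J).powerset, (∏ j ∈ B, Real.exp (-((l j : ℝ) / 2))) *
          (Real.exp (CR * Λ) ^ B.card * Real.exp (CR * R)) := by
        refine Finset.sum_le_sum fun B hB' => mul_le_mul_of_nonneg_left ?_
          (Finset.prod_nonneg fun _ _ => (Real.exp_pos _).le)
        refine (euler_le2 (fun p => Ww_nonneg B p) (fun p v => Gw_nonneg B p v) (fun p v hv => Gw_le B p v hv) N).trans ?_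
        rw [← Real.exp_nat_mul, ← Real.exp_add]
        refine Real.exp_le_exp.2 ?_
        have := mul_le_mul_of_nonneg_left (hB B hB') hCR
        linarith
    _ = (∏ j ∈ Finset.range J, (1 + Real.exp (CR * Λ) * Real.exp (-((l j : ℝ) / 2)))) *
          Real.exp (CR * R) := by
        rw [Finset.prod_one_add, Finset.sum_mul]
        refine Finset.sum_congr rfl fun B _ => ?_
        rw [Finset.prod_mul_distrib, Finset.prod_const]
        ring
    _ ≤ _ := by
        refine mul_le_mul_of_nonneg_right ?_ (Real.exp_pos _).le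
        rw [Finset.mul_sum, Real.exp_sum]
        refine Finset.prod_le_prod (fun j _ => by positivity) fun j _ => ?_
        have := Real.add_one_le_exp (Real.exp (CR * Λ) * Real.exp (-((l j : ℝ) / 2)))
        linarith

end Pool.Agent.Helper66.HG
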