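import Pool.Agent.Helper66.HG.Mer
import Pool.Agent.Helper66.HG.SumA
import Pool.Agent.Helper69.HG.Mol

/-!
# The cells of the mollifier, and `IsCM` gives `CellFn`
-/

open Finset Pool.Agent.Helper69.HG
open scoped ArithmeticFunction.Moebius

namespace Pool.Agent.Helper66.HG

variable {T ε : ℝ}

lemma InCell_unique (hT : 1 < T) (hε : 0 < ε) {i j p : ℕ} (hi : InCell T ε i p) (hj : InCell T ε j p) : i = j := by
  have key : ∀ {i j : ℕ}, InCell T ε i p → InCell T ε j p → ¬ i < j := by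
    intro i j hi hj hij
    have h1 : ε / 2 ^ j ≤ ε / 2 ^ (i + 1) :=
      div_le_div_of_nonneg_left hε.le (by positivity) (pow_le_pow_right₀ (by norm_num) hij)
    have h2 : T ^ (ε / 2 ^ j) ≤ T ^ (ε / 2 ^ (i + 1)) := Real.rpow_le_rpow_of_exponent_le hT.le h1
    linarith [hi.2.1, hj.2.2]
  have h1 := key hi hj
  have h2 := key hj hi
  omega

lemma exists_cell (hT : 1 < T) (hε : 0 < ε) {p : ℕ} (hp : p.Prime) (hpy : (p : ℝ) ≤ T ^ ε) :
    ∃ j, InCell T ε j p := by
  classical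
  have hL : 0 < Real.log T := Real.log_pos hT
  have hex : ∃ j : ℕ, T ^ (ε / 2 ^ (j + 1)) < (p : ℝ) := by
    obtain ⟨j, hj⟩ := pow_unbounded_of_one_lt (ε * Real.log T / Real.log 2) (by norm_num : (1:ℝ) < 2)
    refine ⟨j, ?_⟩
    have h2 : (2:ℝ) ≤ p := by exact_mod_cast hp.two_le
    have hl2 : 0 < Real.log 2 := Real.log_pos (by norm_num)
    have h3 : Real.log T * (ε / 2 ^ (j + 1)) < Real.log 2 := by
      rw [← mul_div_assoc, div_lt_iff₀ (by positivity)]
      rw [div_lt_iff₀ hl2] at hj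
      have : (2:ℝ) ^ (j + 1) = 2 ^ j * 2 := pow_succ _ _
      rw [this]
      have h4 : (0:ℝ) < 2 ^ j := by positivity
      nlinarith
    calc T ^ (ε / 2 ^ (j + 1)) = Real.exp (Real.log T * (ε / 2 ^ (j + 1))) := by
          rw [Real.rpow_def_of_pos (by linarith)]
      _ < Real.exp (Real.log 2) := Real.exp_lt_exp.2 h3
      _ = 2 := Real.exp_log (by norm_num)
      _ ≤ p := h2
  have hs := Nat.find_spec hex
  set j := Nat.find hex with hj
  refine ⟨j, hp, hs, ?_⟩
  rcases Nat.eq_zero_or_pos j with h0 | h0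
  · rw [h0, pow_zero, div_one]
    exact hpy
  · have h1 := Nat.find_min hex (m := j - 1) (by omega)
    rw [not_lt, Nat.sub_add_cancel h0] at h1
    exact h1

open Classical in
/-- The cell of a prime. -/
noncomputable def cellOf (T ε : ℝ) (p : ℕ) : ℕ := if h : ∃ j, InCell T ε j p then Nat.find h else 0

lemma cellOf_eq (hT : 1 < T) (hε : 0 < ε) {j p : ℕ} (h : InCell T ε j p) : cellOf T ε p = j := by
  classical
  have hex : ∃ j, InCell T ε j p := ⟨j, h⟩
  rw [cellOf, dif_pos hex]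
  exact InCell_unique hT hε (Nat.find_spec hex) h

lemma inCell_cellOf (hT : 1 < T) (hε : 0 < ε) {p : ℕ} (hp : p.Prime) (hpy : (p : ℝ) ≤ T ^ ε) :
    InCell T ε (cellOf T ε p) p := by
  obtain ⟨j, hj⟩ := exists_cell hT hε hp hpy
  rw [cellOf_eq hT hε hj]
  exact hj

lemma Om_ne_zero {j n : ℕ} (h : Om T ε j n ≠ 0) : ∃ p ∈ n.primeFactors, InCell T ε j p := by
  classical
  unfold Om at h
  have h1 := List.exists_mem_of_length_pos (Nat.pos_of_ne_zero h)
  obtain ⟨p, hp⟩ := h1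
  rw [List.mem_filter] at hp
  have h2 := hp.2
  rw [decide_eq_true_eq] at h2
  exact ⟨p, List.mem_toFinset.2 hp.1, h2⟩

/-- `IsCM` gives cell-multiplicative coefficients. -/
theorem IsCM.cellFn {b : ℕ} {a : ℕ → ℝ} (hT : 1 < T) (hε : 0 < ε) (h : IsCM T ε b a) :
    CellFn a (T ^ ε) (cellOf T ε) (fun j => b + j) where
  one := h.one
  mul := by
    intro m n hm hn hmn
    refine h.mul m n hm hn fun j => ?_
    by_contra hc
    rw [not_or] at hc
    obtain ⟨p, hp, hpj⟩ := Om_ne_zero hc.1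
    obtain ⟨q, hq, hqj⟩ := Om_ne_zero hc.2
    exact hmn p hp q hq ((cellOf_eq hT hε hpj).trans (cellOf_eq hT hε hqj).symm)
  big := by
    rintro n ⟨p, hp, hpy⟩
    have hp' := Nat.mem_primeFactors.1 hp
    exact h.big n p hp'.1 hp'.2.1 hpy
  mu := by
    intro n j hn hall hΩ
    refine h.mu n j hn (fun p hp hpn => ?_) (le_trans ?_ hΩ)
    · obtain ⟨h1, h2⟩ := hall p (Nat.mem_primeFactors.2 ⟨hp, hpn, hn⟩)
      rw [← h2]
      exact inCell_cellOf hT hε hp h1
    · unfold Om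
      exact List.length_filter_le _ _
  abs_le := h.bd

/-- The cells have bounded sum of reciprocals. -/
theorem cell_sum (hT : 1 < T) (hε : 0 < ε) (j : ℕ) (S : Finset ℕ) (hS : ∀ p ∈ S, InCell T ε j p) :
    ∑ p ∈ S, 1 / (p : ℝ) ≤ 6 := by
  rcases S.eq_empty_or_nonempty with h0 | ⟨p₀, hp₀⟩
  · rw [h0]
    simp
  have hL : 0 < Real.log T := Real.log_pos hT
  have hTpos : 0 < T := by linarith
  set δ := ε / 2 ^ j with hδ
  have hδpos : 0 < δ := by positivity
  have hlog : ∀ p : ℕ, p.Prime → (p:ℝ) ≤ T ^ δ → Real.log p ≤ δ * Real.log T := by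
    intro p hp hpT
    have hp0 : (0:ℝ) < p := by exact_mod_cast hp.pos
    calc Real.log p ≤ Real.log (T ^ δ) := Real.log_le_log hp0 hpT
      _ = δ * Real.log T := Real.log_rpow hTpos _
  have hp0 := hS p₀ hp₀
  have hl2 : Real.log 2 ≤ δ * Real.log T := by
    refine le_trans ?_ (hlog p₀ hp0.1 hp0.2.2)
    exact Real.log_le_log (by norm_num) (by exact_mod_cast hp0.1.two_le)
  set N := ⌊T ^ δ⌋₊ with hN
  have hN1 : 1 ≤ N := Nat.le_floor (by
    have : (2:ℝ) ≤ p₀ := by exact_mod_cast hp0.1.two_le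
    push_cast
    linarith [hp0.2.2])
  have hNlog : Real.log N ≤ δ * Real.log T := by
    have h1 : (N:ℝ) ≤ T ^ δ := Nat.floor_le (by positivity)
    calc Real.log N ≤ Real.log (T ^ δ) := Real.log_le_log (by exact_mod_cast hN1) h1
      _ = δ * Real.log T := Real.log_rpow hTpos _
  have hE : 0 < δ * Real.log T / 2 := by positivity
  have h1 := mer_tail hN1 hE S (fun p hp => by
    have h2 := hS p hp
    refine ⟨h2.1, Nat.le_floor h2.2.2, ?_⟩
    have h3 := h2.2.1
    have h4 : ε / 2 ^ (j + 1) = δ / 2 := by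
      rw [hδ, pow_succ]
      field_simp
    rw [h4] at h3
    have h5 := Real.log_le_log (by positivity) h3.le
    rw [Real.log_rpow hTpos] at h5
    linarith)
  refine h1.trans ?_
  rw [div_le_iff₀ hE]
  have h6 : Real.log 4 = 2 * Real.log 2 := by
    rw [show (4:ℝ) = 2 ^ 2 by norm_num, Real.log_pow]
    norm_num
  rw [h6]
  linarith

end Pool.Agent.Helper66.HG
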