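import Pool.Agent.Helper66.HG.Lam3

/-!
# Euler product bound with prime powers, and the sum of `d(n) (1 * a)(n)^2 / n`
-/

open Finset

namespace Pool.Agent.Helper66.HG

/-- The ratio `√e / 2 < 1`. -/
noncomputable def rr : ℝ := Real.exp (1 / 2) / 2

lemma rr_pos : 0 < rr := by unfold rr; positivity

lemma rr_lt : rr < 1 := by
  unfold rr
  have h1 : Real.exp (1 / 2) < 2 := by
    have h2 : Real.exp (1 / 2) ^ 2 < 2 ^ 2 := by
      rw [← Real.exp_nat_mul]
      have := Real.exp_one_lt_d9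
      norm_num at this ⊢
      linarith
    exact lt_of_pow_lt_pow_left₀ 2 (by norm_num) h2
  linarith

lemma rr_summable : Summable (fun k : ℕ => ((k:ℝ) + 1) ^ 3 * rr ^ k) := by
  have h1 : Summable (fun k : ℕ => (k:ℝ) ^ 3 * rr ^ k) :=
    summable_pow_mul_geometric_of_norm_lt_one 3 (by rw [Real.norm_of_nonneg rr_pos.le]; exact rr_lt)
  have h2 := (summable_nat_add_iff 1).2 h1
  have h3 := h2.mul_left rr⁻¹
  refine h3.congr fun k => ?_
  have := rr_pos.ne'
  push_cast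
  rw [pow_succ rr k]
  field_simp

/-- The constant `2 ∑ (k+1)^3 rr^k`. -/
noncomputable def CR : ℝ := 2 * ∑' k : ℕ, ((k:ℝ) + 1) ^ 3 * rr ^ k

lemma CR_nonneg : 0 ≤ CR := by
  unfold CR
  have : 0 ≤ ∑' k : ℕ, ((k:ℝ) + 1) ^ 3 * rr ^ k :=
    tsum_nonneg fun k => mul_nonneg (by positivity) (pow_nonneg rr_pos.le _)
  positivity

/-- The multiplicative function `d(n) ∏_{p | n} G(p, v_p) / n`. -/
noncomputable def fG (G : ℕ → ℕ → ℝ) (n : ℕ) : ℝ :=
  (n.divisors.card : ℝ) * (∏ p ∈ n.primeFactors, G p (n.factorization p)) / n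

private lemma fG_pp {G : ℕ → ℕ → ℝ} {p : ℕ} (hp : p.Prime) (k : ℕ) :
    fG G (p ^ k) = if k = 0 then (1:ℝ) else (k + 1) * G p k / (p:ℝ) ^ k := by
  by_cases hk : k = 0
  · subst hk
    simp [fG]
  · rw [if_neg hk, fG, Nat.primeFactors_prime_pow hk hp, Finset.prod_singleton,
      Nat.divisors_prime_pow hp, Finset.card_map, Finset.card_range, hp.factorization_pow]
    push_cast
    simp

private lemma fG_pp_le {G : ℕ → ℕ → ℝ} {w : ℝ} {p : ℕ} (hp : p.Prime) (hw : 0 ≤ w)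
    (hG0 : ∀ v, 0 ≤ G p v)
    (hG : ∀ v, 1 ≤ v → G p v ≤ w * (((v:ℝ) + 1) ^ 2 * Real.exp (v / 2))) (k : ℕ) :
    0 ≤ fG G (p ^ k) ∧
    fG G (p ^ k) ≤ (if k = 0 then (1:ℝ) else 0) + 2 * w / p * (((k:ℝ) + 1) ^ 3 * rr ^ k) := by
  have hp2 : (2:ℝ) ≤ p := by exact_mod_cast hp.two_le
  have hppos : (0:ℝ) < p := by linarith
  have hr := rr_pos
  rw [fG_pp hp]
  by_cases hk : k = 0
  · subst hk
    simp only [if_true]
    refine ⟨zero_le_one, ?_⟩
    have : 0 ≤ 2 * w / p * (((0:ℕ):ℝ) + 1) ^ 3 * rr ^ 0 := by positivity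
    rw [← mul_assoc]
    linarith
  · rw [if_neg hk, if_neg hk, zero_add]
    have hk1 : 1 ≤ k := Nat.one_le_iff_ne_zero.2 hk
    refine ⟨div_nonneg (mul_nonneg (by positivity) (hG0 k)) (by positivity), ?_⟩
    have h1 : (k + 1) * G p k / (p:ℝ) ^ k ≤
        (k + 1) * (w * (((k:ℝ) + 1) ^ 2 * Real.exp (k / 2))) / (p:ℝ) ^ k := by
      gcongr
      exact hG k hk1
    refine h1.trans ?_
    have h2 : Real.exp ((k:ℝ) / 2) = (2 * rr) ^ k := by
      unfold rr
      rw [mul_div_cancel₀ _ (two_ne_zero), ← Real.exp_nat_mul]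
      congr 1
      ring
    rw [h2, mul_pow]
    have h3 : (2:ℝ) ^ k / (p:ℝ) ^ k ≤ 2 / p := by
      rw [← div_pow]
      have h4 : (2:ℝ) / p ≤ 1 := (div_le_one hppos).2 hp2
      calc ((2:ℝ) / p) ^ k ≤ (2 / p) ^ 1 := pow_le_pow_of_le_one (by positivity) h4 hk1
        _ = 2 / p := pow_one _
    have h5 : (k + 1) * (w * (((k:ℝ) + 1) ^ 2 * (2 ^ k * rr ^ k))) / (p:ℝ) ^ k =
        ((2:ℝ) ^ k / (p:ℝ) ^ k) * (w * (((k:ℝ) + 1) ^ 3 * rr ^ k)) := by ring
    have h6 : 2 * w / p * (((k:ℝ) + 1) ^ 3 * rr ^ k) = (2 / p) * (w * (((k:ℝ) + 1) ^ 3 * rr ^ k)) := by ring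
    rw [h5, h6]
    exact mul_le_mul_of_nonneg_right h3 (by positivity)

/-- Euler product bound. -/
theorem euler_le2 {G : ℕ → ℕ → ℝ} {W : ℕ → ℝ} (hW : ∀ p, 0 ≤ W p) (hG0 : ∀ p v, 0 ≤ G p v)
    (hG : ∀ p v, 1 ≤ v → G p v ≤ W p * (((v:ℝ) + 1) ^ 2 * Real.exp (v / 2))) (N : ℕ) :
    ∑ n ∈ Finset.Icc 1 N, fG G n ≤
      Real.exp (CR * ∑ p ∈ (Finset.Icc 1 N).filter Nat.Prime, W p / p) := by
  have h1 : fG G 1 = 1 := by simp [fG]
  have hnn : ∀ n, 0 ≤ fG G n := fun n => by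
    unfold fG
    have := Finset.prod_nonneg (s := n.primeFactors) (f := fun p => G p (n.factorization p)) fun p _ => hG0 p _
    positivity
  have hmul : ∀ {m n : ℕ}, Nat.Coprime m n → fG G (m * n) = fG G m * fG G n := by
    intro m n hmn
    rcases Nat.eq_zero_or_pos m with hm | hm
    · subst hm; simp [fG]
    rcases Nat.eq_zero_or_pos n with hn | hn
    · subst hn; simp [fG]
    unfold fG
    have hd := hmn.disjoint_primeFactors
    rw [Nat.Coprime.card_divisors_mul hmn, Nat.Coprime.primeFactors_mul hmn, Finset.prod_union hd]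
    have e1 : ∏ p ∈ m.primeFactors, G p ((m * n).factorization p) = ∏ p ∈ m.primeFactors, G p (m.factorization p) := by
      refine Finset.prod_congr rfl fun p hp => ?_
      rw [Nat.factorization_mul hm.ne' hn.ne', Finsupp.add_apply]
      have : p ∉ n.primeFactors := Finset.disjoint_left.1 hd hp
      rw [← Nat.support_factorization, Finsupp.notMem_support_iff] at this
      rw [this, add_zero]
    have e2 : ∏ p ∈ n.primeFactors, G p ((m * n).factorization p) = ∏ p ∈ n.primeFactors, G p (n.factorization p) := by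
      refine Finset.prod_congr rfl fun p hp => ?_
      rw [Nat.factorization_mul hm.ne' hn.ne', Finsupp.add_apply]
      have : p ∉ m.primeFactors := Finset.disjoint_right.1 hd hp
      rw [← Nat.support_factorization, Finsupp.notMem_support_iff] at this
      rw [this, zero_add]
    rw [e1, e2]
    push_cast
    have hm' : (m:ℝ) ≠ 0 := by positivity
    have hn' : (n:ℝ) ≠ 0 := by positivity
    field_simp
  have hdom : ∀ {p : ℕ}, p.Prime → Summable (fun k : ℕ => (if k = 0 then (1:ℝ) else 0) +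
      2 * W p / p * (((k:ℝ) + 1) ^ 3 * rr ^ k)) := fun {p} _ =>
    (hasSum_ite_eq 0 (1:ℝ)).summable.add (rr_summable.mul_left _)
  have hle : ∀ {p : ℕ}, p.Prime → ∀ k : ℕ, 0 ≤ fG G (p ^ k) ∧ fG G (p ^ k) ≤ (if k = 0 then (1:ℝ) else 0) +
      2 * W p / p * (((k:ℝ) + 1) ^ 3 * rr ^ k) := fun {p} hp => fG_pp_le hp (hW p) (hG0 p) (hG p)
  have hs1 : ∀ {p : ℕ}, p.Prime → Summable (fun n : ℕ => fG G (p ^ n)) := fun {p} hp =>
    Summable.of_nonneg_of_le (fun k => (hle hp k).1) (fun k => (hle hp k).2) (hdom hp)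
  have hsum : ∀ {p : ℕ}, p.Prime → Summable (fun n : ℕ => ‖fG G (p ^ n)‖) := by
    intro p hp
    refine (hs1 hp).congr fun k => ?_
    rw [Real.norm_of_nonneg (hnn _)]
  obtain ⟨hs, ht⟩ := EulerProduct.summable_and_hasSum_factoredNumbers_prod_filter_prime_tsum
    h1 hmul hsum (Finset.Icc 1 N)
  have hsub : ∀ n ∈ Finset.Icc 1 N, n ∈ Nat.factoredNumbers (Finset.Icc 1 N) := by
    intro n hn
    have hn' := Finset.mem_Icc.1 hn
    rw [Nat.mem_factoredNumbers']
    intro p hp hpn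
    rw [Finset.mem_Icc]
    exact ⟨hp.one_lt.le, (Nat.le_of_dvd (by omega) hpn).trans hn'.2⟩
  have h2 : ∑ n ∈ Finset.Icc 1 N, fG G n ≤
      ∏ p ∈ (Finset.Icc 1 N).filter Nat.Prime, ∑' k : ℕ, fG G (p ^ k) := by
    rw [← ht.tsum_eq]
    have h3 : ∑ n ∈ Finset.Icc 1 N, fG G n =
        ∑ m ∈ (Finset.Icc 1 N).attach.map ⟨fun x => (⟨x.1, hsub x.1 x.2⟩ : Nat.factoredNumbers (Finset.Icc 1 N)),
          fun x y hxy => Subtype.ext (congrArg (fun z => z.1) hxy)⟩, fG G m := by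
      rw [Finset.sum_map]
      exact (Finset.sum_attach _ (fun n => fG G n)).symm
    rw [h3]
    exact ht.summable.sum_le_tsum _ fun m _ => hnn _
  refine h2.trans ?_
  calc ∏ p ∈ (Finset.Icc 1 N).filter Nat.Prime, ∑' k : ℕ, fG G (p ^ k)
      ≤ ∏ p ∈ (Finset.Icc 1 N).filter Nat.Prime, Real.exp (CR * (W p / p)) := by
        refine Finset.prod_le_prod (fun p _ => tsum_nonneg fun k => hnn _) fun p hp => ?_
        have hpp := (Finset.mem_filter.1 hp).2
        refine ((hs1 hpp).tsum_le_tsum (fun k => (hle hpp k).2) (hdom hpp)).trans ?_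
        rw [((hasSum_ite_eq 0 (1:ℝ)).summable).tsum_add (rr_summable.mul_left _),
          (hasSum_ite_eq 0 (1:ℝ)).tsum_eq, tsum_mul_left]
        have := Real.add_one_le_exp (CR * (W p / p))
        have e : 2 * W p / (p:ℝ) * ∑' k : ℕ, ((k:ℝ) + 1) ^ 3 * rr ^ k = CR * (W p / p) := by
          unfold CR
          ring
        rw [e]
        linarith
    _ = _ := by rw [← Real.exp_sum, Finset.mul_sum]

end Pool.Agent.Helper66.HG
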