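import Mathlib

/-!
# The truncated Moebius coefficients and their divisor sums

Abstract cells: `cell p` is the cell of the prime `p`, at most `l j` primes of the cell `j < J`, all
primes `≤ y`; no condition for the primes with `cell p ≥ J`.
-/

open Finset

namespace Pool.Agent.Helper66.HG

/-- Condition on a set of primes. -/
def Adm (y : ℝ) (cell l : ℕ → ℕ) (J : ℕ) (S : Finset ℕ) : Prop :=
  (∀ p ∈ S, (p : ℝ) ≤ y) ∧ ∀ j < J, (S.filter (fun p => cell p = j)).card ≤ l j

open Classical in
/-- Coefficients of the mollifier. -/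
noncomputable def bM (y : ℝ) (cell l : ℕ → ℕ) (J : ℕ) (m : ℕ) : ℝ :=
  if Squarefree m ∧ Adm y cell l J m.primeFactors then (ArithmeticFunction.moebius m : ℝ) else 0

/-- Divisor sums `1 * bM`. -/
noncomputable def lam (y : ℝ) (cell l : ℕ → ℕ) (J : ℕ) (n : ℕ) : ℝ :=
  ∑ m ∈ n.divisors, bM y cell l J m

variable {y : ℝ} {cell l : ℕ → ℕ} {J : ℕ}

open Classical in
lemma lam_eq {n : ℕ} (hn : n ≠ 0) :
    lam y cell l J n = ∑ S ∈ n.primeFactors.powerset, if Adm y cell l J S then (-1 : ℝ) ^ S.card else 0 := by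
  have h1 : lam y cell l J n = ∑ m ∈ n.divisors.filter Squarefree, bM y cell l J m := by
    rw [lam, Finset.sum_filter]
    refine Finset.sum_congr rfl fun m _ => ?_
    by_cases hm : Squarefree m
    · rw [if_pos hm]
    · rw [if_neg hm, bM, if_neg (fun h => hm h.1)]
  rw [h1]
  refine Finset.sum_bij' (fun m _ => m.primeFactors) (fun S _ => ∏ p ∈ S, p) ?_ ?_ ?_ ?_ ?_
  · intro m hm
    obtain ⟨hm1, _⟩ := Finset.mem_filter.1 hm
    rw [Finset.mem_powerset]
    exact Nat.primeFactors_mono (Nat.dvd_of_mem_divisors hm1) hn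
  · intro S hS
    rw [Finset.mem_powerset] at hS
    have hp : ∀ p ∈ S, p.Prime := fun p hp => Nat.prime_of_mem_primeFactors (hS hp)
    rw [Finset.mem_filter, Nat.mem_divisors]
    refine ⟨⟨?_, hn⟩, ?_⟩
    · exact (Finset.prod_dvd_prod_of_subset _ _ _ hS).trans (Nat.prod_primeFactors_dvd n)
    · refine Finset.squarefree_prod_of_pairwise_isCoprime ?_ fun p hpS => (hp p hpS).squarefree
      intro p hpS q hqS hpq
      rw [Function.onFun, ← Nat.coprime_iff_isRelPrime]
      exact (Nat.coprime_primes (hp p hpS) (hp q hqS)).2 hpq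
  · intro m hm
    exact Nat.prod_primeFactors_of_squarefree (Finset.mem_filter.1 hm).2
  · intro S hS
    rw [Finset.mem_powerset] at hS
    exact Nat.primeFactors_prod fun p hp => Nat.prime_of_mem_primeFactors (hS hp)
  · intro m hm
    obtain ⟨_, hm2⟩ := Finset.mem_filter.1 hm
    rw [bM]
    by_cases hA : Adm y cell l J m.primeFactors
    · have hc : m.primeFactors.card = ArithmeticFunction.cardFactors m := by
        rw [← (ArithmeticFunction.cardDistinctFactors_eq_cardFactors_iff_squarefree hm2.ne_zero).2 hm2]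
        rfl
      rw [if_pos ⟨hm2, hA⟩, if_pos hA, ArithmeticFunction.moebius_apply_of_squarefree hm2, hc]
      push_cast
      rfl
    · rw [if_neg (fun h => hA h.2), if_neg hA]

/-- The bad cells of `n`. -/
noncomputable def badc (y : ℝ) (cell l : ℕ → ℕ) (J n : ℕ) : Finset ℕ :=
  (Finset.range J).filter (fun j => l j < ((n.primeFactors.filter (fun p : ℕ => (p : ℝ) ≤ y)).filter
    (fun p => cell p = j)).card)

open Classical in
/-- If some prime `≤ y` of `n` is in a good cell then `lam n = 0`. -/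
lemma lam_eq_zero {n q : ℕ} (hq : q ∈ n.primeFactors) (hqy : (q : ℝ) ≤ y)
    (hg : cell q ∉ badc y cell l J n) : lam y cell l J n = 0 := by
  have hn : n ≠ 0 := by
    rintro rfl
    simp at hq
  rw [lam_eq hn]
  have key : ∀ S : Finset ℕ, q ∉ S → insert q S ⊆ n.primeFactors →
      (Adm y cell l J (insert q S) ↔ Adm y cell l J S) := by
    intro S hqS hS
    constructor
    · intro h
      refine ⟨fun p hp => h.1 p (Finset.mem_insert_of_mem hp), fun j hj => ?_⟩
      exact (Finset.card_le_card (Finset.filter_subset_filter _ (Finset.subset_insert _ _))).trans (h.2 j hj)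
    · intro h
      refine ⟨fun p hp => ?_, fun j hj => ?_⟩
      · rcases Finset.mem_insert.1 hp with rfl | hp
        · exact hqy
        · exact h.1 p hp
      · by_cases hcj : cell q = j
        · have h1 : j ∉ badc y cell l J n := hcj ▸ hg
          have h2 : ¬ l j < ((n.primeFactors.filter (fun p : ℕ => (p : ℝ) ≤ y)).filter
              (fun p => cell p = j)).card := fun h3 => h1 (Finset.mem_filter.2 ⟨Finset.mem_range.2 hj, h3⟩)
          refine le_trans (Finset.card_le_card ?_) (not_lt.1 h2)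
          intro p hp
          obtain ⟨hp1, hp2⟩ := Finset.mem_filter.1 hp
          refine Finset.mem_filter.2 ⟨Finset.mem_filter.2 ⟨hS hp1, ?_⟩, hp2⟩
          rcases Finset.mem_insert.1 hp1 with rfl | hp
          · exact hqy
          · exact h.1 p hp
        · rw [Finset.filter_insert, if_neg hcj]
          exact h.2 j hj
  have hP : n.primeFactors = insert q (n.primeFactors.erase q) := (Finset.insert_erase hq).symm
  have hqe : q ∉ n.primeFactors.erase q := Finset.notMem_erase _ _
  rw [hP, Finset.sum_powerset_insert hqe, ← Finset.sum_add_distrib]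
  refine Finset.sum_eq_zero fun S hS => ?_
  rw [Finset.mem_powerset] at hS
  have hqS : q ∉ S := fun h => hqe (hS h)
  have hins : insert q S ⊆ n.primeFactors := by
    rw [hP]
    exact Finset.insert_subset_insert _ hS
  by_cases hA : Adm y cell l J S
  · rw [if_pos hA, if_pos ((key S hqS hins).2 hA), Finset.card_insert_of_notMem hqS, pow_succ]
    ring
  · rw [if_neg hA, if_neg (fun h => hA ((key S hqS hins).1 h)), add_zero]

open Classical in
lemma abs_lam_le {n : ℕ} (hn : n ≠ 0) :
    |lam y cell l J n| ≤ 2 ^ (n.primeFactors.filter (fun p : ℕ => (p : ℝ) ≤ y)).card := by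
  rw [lam_eq hn]
  set P := n.primeFactors.filter (fun p : ℕ => (p : ℝ) ≤ y) with hP
  have h1 : ∑ S ∈ n.primeFactors.powerset, (if Adm y cell l J S then (-1 : ℝ) ^ S.card else 0) =
      ∑ S ∈ P.powerset, (if Adm y cell l J S then (-1 : ℝ) ^ S.card else 0) := by
    symm
    refine Finset.sum_subset (Finset.powerset_mono.2 (Finset.filter_subset _ _)) fun S hS hS' => ?_
    rw [if_neg]
    intro h
    refine hS' (Finset.mem_powerset.2 fun p hp => ?_)
    exact Finset.mem_filter.2 ⟨Finset.mem_powerset.1 hS hp, h.1 p hp⟩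
  rw [h1]
  refine (Finset.abs_sum_le_sum_abs _ _).trans ?_
  calc ∑ S ∈ P.powerset, |(if Adm y cell l J S then (-1 : ℝ) ^ S.card else 0)| ≤ ∑ S ∈ P.powerset, (1:ℝ) := by
        refine Finset.sum_le_sum fun S _ => ?_
        split_ifs
        · rw [abs_pow, abs_neg, abs_one, one_pow]
        · simp
    _ = 2 ^ P.card := by
        rw [Finset.sum_const, Finset.card_powerset, nsmul_eq_mul, mul_one]
        push_cast
        rfl

/-- Weight of a prime when `B` is the set of bad cells. -/
noncomputable def Wt (y : ℝ) (cell : ℕ → ℕ) (B : Finset ℕ) (p : ℕ) : ℝ :=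
  if (p : ℝ) ≤ y then (if cell p ∈ B then 4 * Real.exp 1 else 0) else 1

lemma Wt_nonneg (B : Finset ℕ) (p : ℕ) : 0 ≤ Wt y cell B p := by
  unfold Wt
  split_ifs
  · positivity
  · exact le_rfl
  · exact zero_le_one

/-- Majorant of `lam n ^ 2`. -/
theorem lam_sq_le {n : ℕ} (hn : n ≠ 0) :
    lam y cell l J n ^ 2 ≤ ∑ B ∈ (Finset.range J).powerset, (∏ j ∈ B, Real.exp (-(l j : ℝ))) *
      ∏ p ∈ n.primeFactors, Wt y cell B p := by
  have hnn : ∀ B ∈ (Finset.range J).powerset, 0 ≤ (∏ j ∈ B, Real.exp (-(l j : ℝ))) *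
      ∏ p ∈ n.primeFactors, Wt y cell B p := fun B _ =>
    mul_nonneg (Finset.prod_nonneg fun _ _ => (Real.exp_pos _).le)
      (Finset.prod_nonneg fun _ _ => Wt_nonneg _ _)
  by_cases h0 : lam y cell l J n = 0
  · rw [h0]
    simpa using Finset.sum_nonneg hnn
  have hbad : ∀ p ∈ n.primeFactors, (p : ℝ) ≤ y → cell p ∈ badc y cell l J n := by
    intro p hp hpy
    by_contra hc
    exact h0 (lam_eq_zero hp hpy hc)
  have hB : badc y cell l J n ∈ (Finset.range J).powerset :=
    Finset.mem_powerset.2 (Finset.filter_subset _ _)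
  refine le_trans ?_ (Finset.single_le_sum hnn hB)
  set B := badc y cell l J n with hBdef
  set P := n.primeFactors.filter (fun p : ℕ => (p : ℝ) ≤ y) with hP
  have h1 : ∏ p ∈ n.primeFactors, Wt y cell B p = (4 * Real.exp 1) ^ P.card := by
    have h2 : ∏ p ∈ n.primeFactors, Wt y cell B p =
        ∏ p ∈ n.primeFactors, (if (p : ℝ) ≤ y then 4 * Real.exp 1 else 1) := by
      refine Finset.prod_congr rfl fun p hp => ?_
      unfold Wt
      by_cases hpy : (p : ℝ) ≤ y
      · rw [if_pos hpy, if_pos hpy, if_pos (hbad p hp hpy)]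
      · rw [if_neg hpy, if_neg hpy]
    rw [h2, Finset.prod_ite, Finset.prod_const, Finset.prod_const_one, mul_one]
  have h3 : ∑ j ∈ B, (l j : ℝ) ≤ P.card := by
    have h4 : P.card = ∑ j ∈ B, (P.filter (fun p => cell p = j)).card := by
      refine Finset.card_eq_sum_card_fiberwise fun p hp => ?_
      obtain ⟨hp1, hp2⟩ := Finset.mem_filter.1 hp
      exact hbad p hp1 hp2
    rw [h4]
    push_cast
    refine Finset.sum_le_sum fun j hj => ?_
    have := (Finset.mem_filter.1 hj).2
    exact_mod_cast this.le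
  have h5 : (lam y cell l J n) ^ 2 ≤ 4 ^ P.card := by
    rw [← sq_abs]
    calc |lam y cell l J n| ^ 2 ≤ (2 ^ P.card) ^ 2 := pow_le_pow_left₀ (abs_nonneg _) (abs_lam_le hn) 2
      _ = 4 ^ P.card := by
          rw [← pow_mul, mul_comm, pow_mul]
          norm_num
  refine h5.trans ?_
  rw [h1, mul_pow, ← Real.exp_sum, Finset.sum_neg_distrib, ← Real.exp_nat_mul]
  have h6 : 1 ≤ Real.exp (-∑ j ∈ B, (l j : ℝ)) * Real.exp (P.card * 1) := by
    rw [← Real.exp_add]
    exact Real.one_le_exp (by linarith)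
  have h7 : (0:ℝ) < 4 ^ P.card := by positivity
  nlinarith

end Pool.Agent.Helper66.HG
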