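import Mathlib

/-!
# Cell-multiplicative coefficients: vanishing and size of the divisor sums

`cell p` is the cell of the prime `p`; `a` is multiplicative over the cells, vanishes at numbers with a
prime factor `> y`, and agrees with the Moebius function on numbers of one cell `j` with at most `l j`
prime factors.
-/

open Finset

namespace Pool.Agent.Helper66.HG

/-- Cell-multiplicative coefficients. -/
structure CellFn (a : ℕ → ℝ) (y : ℝ) (cell l : ℕ → ℕ) : Prop where
  one : a 1 = 1
  mul : ∀ m n : ℕ, m ≠ 0 → n ≠ 0 →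
    (∀ p ∈ m.primeFactors, ∀ q ∈ n.primeFactors, cell p ≠ cell q) → a (m * n) = a m * a n
  big : ∀ n : ℕ, (∃ p ∈ n.primeFactors, y < (p : ℝ)) → a n = 0
  mu : ∀ n j : ℕ, n ≠ 0 → (∀ p ∈ n.primeFactors, (p : ℝ) ≤ y ∧ cell p = j) →
    ArithmeticFunction.cardFactors n ≤ l j → a n = (ArithmeticFunction.moebius n : ℝ)
  abs_le : ∀ n, |a n| ≤ 1

lemma sum_div_mul {m n : ℕ} (hmn : m.Coprime n) (hm : m ≠ 0) (hn : n ≠ 0) (f : ℕ → ℝ) :
    ∑ d ∈ (m * n).divisors, f d = ∑ d ∈ m.divisors, ∑ e ∈ n.divisors, f (d * e) := by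
  rw [← Finset.sum_product']
  refine Finset.sum_bij' (fun d _ => (Nat.gcd d m, Nat.gcd d n)) (fun x _ => x.1 * x.2) ?_ ?_ ?_ ?_ ?_
  · intro d hd
    rw [Finset.mem_product, Nat.mem_divisors, Nat.mem_divisors]
    exact ⟨⟨Nat.gcd_dvd_right _ _, hm⟩, ⟨Nat.gcd_dvd_right _ _, hn⟩⟩
  · rintro ⟨d, e⟩ h
    rw [Finset.mem_product, Nat.mem_divisors, Nat.mem_divisors] at h
    rw [Nat.mem_divisors]
    exact ⟨mul_dvd_mul h.1.1 h.2.1, mul_ne_zero hm hn⟩
  · intro d hd
    have h1 := (Nat.mem_divisors.1 hd).1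
    show Nat.gcd d m * Nat.gcd d n = d
    rw [← Nat.Coprime.gcd_mul _ hmn]
    exact Nat.gcd_eq_left h1
  · rintro ⟨d, e⟩ h
    rw [Finset.mem_product, Nat.mem_divisors, Nat.mem_divisors] at h
    obtain ⟨⟨h1, _⟩, ⟨h2, _⟩⟩ := h
    simp only at h1 h2
    have h3 : Nat.Coprime e m := (hmn.symm.coprime_dvd_left h2)
    have h4 : Nat.Coprime d n := (hmn.coprime_dvd_left h1)
    have e1 : Nat.gcd (d * e) m = d := by
      rw [Nat.Coprime.gcd_mul_right_cancel d h3]
      exact Nat.gcd_eq_left h1
    have e2 : Nat.gcd (d * e) n = e := by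
      rw [Nat.Coprime.gcd_mul_left_cancel e h4]
      exact Nat.gcd_eq_left h2
    simp only [e1, e2]
  · intro d hd
    have h1 := (Nat.mem_divisors.1 hd).1
    show f d = f (Nat.gcd d m * Nat.gcd d n)
    rw [← Nat.Coprime.gcd_mul _ hmn, Nat.gcd_eq_left h1]

/-- The part of `n` made of the primes with property `P`. -/
def part (P : ℕ → Prop) [DecidablePred P] (n : ℕ) : ℕ :=
  ∏ p ∈ n.primeFactors.filter P, p ^ n.factorization p

variable (P : ℕ → Prop) [DecidablePred P]

lemma part_ne_zero (n : ℕ) : part P n ≠ 0 := by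
  refine Finset.prod_ne_zero_iff.2 fun p hp => ?_
  exact pow_ne_zero _ (Nat.prime_of_mem_primeFactors (Finset.mem_filter.1 hp).1).ne_zero

lemma part_mul {n : ℕ} (hn : n ≠ 0) : part P n * part (fun p => ¬ P p) n = n := by
  unfold part
  rw [Finset.prod_filter_mul_prod_filter_not]
  exact Nat.prod_factorization_pow_eq_self hn

lemma primeFactors_part (n : ℕ) : (part P n).primeFactors = n.primeFactors.filter P := by
  ext p
  rw [Nat.mem_primeFactors]
  constructor
  · rintro ⟨hp, hd, _⟩
    obtain ⟨q, hq, hpq⟩ := (Prime.dvd_finsetProd_iff hp.prime _).1 hd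
    have hqp := Nat.prime_of_mem_primeFactors (Finset.mem_filter.1 hq).1
    have : p = q := (Nat.prime_dvd_prime_iff_eq hp hqp).1 (hp.dvd_of_dvd_pow hpq)
    rwa [this]
  · intro h
    have hp' := (Finset.mem_filter.1 h).1
    have hp := Nat.prime_of_mem_primeFactors hp'
    refine ⟨hp, ?_, part_ne_zero P n⟩
    refine dvd_trans ?_ (Finset.dvd_prod_of_mem _ h)
    refine dvd_pow_self _ ?_
    have := Nat.mem_primeFactors.1 hp'
    exact (hp.factorization_pos_of_dvd this.2.2 this.2.1).ne'

lemma coprime_part (n : ℕ) : (part P n).Coprime (part (fun p => ¬ P p) n) := by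
  rw [← Nat.disjoint_primeFactors (part_ne_zero P n) (part_ne_zero _ n), primeFactors_part, primeFactors_part]
  exact Finset.disjoint_filter_filter_not _ _ _

lemma cardFactors_part (n : ℕ) : ArithmeticFunction.cardFactors (part P n) =
    ∑ p ∈ n.primeFactors.filter P, n.factorization p := by
  unfold part
  have : ∀ s : Finset ℕ, (∀ p ∈ s, p.Prime) → ArithmeticFunction.cardFactors (∏ p ∈ s, p ^ n.factorization p) =
      ∑ p ∈ s, n.factorization p := by
    intro s
    induction s using Finset.induction_on with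
    | empty => intro _; simp
    | insert q s hq ih =>
      intro h
      rw [Finset.prod_insert hq, Finset.sum_insert hq, ArithmeticFunction.cardFactors_mul,
        ih fun p hp => h p (Finset.mem_insert_of_mem hp)]
      · congr 1
        exact ArithmeticFunction.cardFactors_apply_prime_pow (h q (Finset.mem_insert_self _ _))
      · exact pow_ne_zero _ (h q (Finset.mem_insert_self _ _)).ne_zero
      · exact Finset.prod_ne_zero_iff.2 fun p hp => pow_ne_zero _ (h p (Finset.mem_insert_of_mem hp)).ne_zero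
  exact this _ fun p hp => Nat.prime_of_mem_primeFactors (Finset.mem_filter.1 hp).1

lemma card_divisors_part (n : ℕ) : (part P n).divisors.card =
    ∏ p ∈ n.primeFactors.filter P, (n.factorization p + 1) := by
  rw [Nat.card_divisors (part_ne_zero P n), primeFactors_part]
  refine Finset.prod_congr rfl fun p hp => ?_
  have hp' := Nat.prime_of_mem_primeFactors (Finset.mem_filter.1 hp).1
  congr 1
  unfold part
  rw [Nat.factorization_prod_apply fun q hq => pow_ne_zero _
    (Nat.prime_of_mem_primeFactors (Finset.mem_filter.1 hq).1).ne_zero]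
  rw [Finset.sum_eq_single p]
  · rw [hp'.factorization_pow]
    simp
  · intro q hq hqp
    rw [(Nat.prime_of_mem_primeFactors (Finset.mem_filter.1 hq).1).factorization_pow]
    simp [hqp]
  · intro h
    exact absurd hp h

end Pool.Agent.Helper66.HG
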