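import Pool.Agent.Helper66.HG.Lam2

/-!
# Divisor sums of cell-multiplicative coefficients
-/

open Finset

namespace Pool.Agent.Helper66.HG

/-- Divisor sum `1 * a`. -/
noncomputable def lamA (a : ℕ → ℝ) (n : ℕ) : ℝ := ∑ m ∈ n.divisors, a m

variable {a : ℕ → ℝ} {y : ℝ} {cell l : ℕ → ℕ} {J : ℕ}

lemma sum_moebius {m : ℕ} (hm : m ≠ 1) :
    ∑ d ∈ m.divisors, (ArithmeticFunction.moebius d : ℝ) = 0 := by
  have h1 := congrArg (fun f => f m) ArithmeticFunction.moebius_mul_coe_zeta
  simp only [ArithmeticFunction.coe_mul_zeta_apply, ArithmeticFunction.one_apply_ne hm] at h1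
  exact_mod_cast h1

open Classical in
/-- If some prime `q ≤ y` of `n` is in a good cell then the divisor sum vanishes. -/
lemma lamA_zero (h : CellFn a y cell l) {n q : ℕ} (hq : q ∈ n.primeFactors) (hqy : (q : ℝ) ≤ y)
    (hg : ∑ p ∈ (n.primeFactors.filter (fun p : ℕ => (p : ℝ) ≤ y)).filter (fun p => cell p = cell q),
      n.factorization p ≤ l (cell q)) : lamA a n = 0 := by
  have hn : n ≠ 0 := by
    rintro rfl
    simp at hq
  set P : ℕ → Prop := fun p => (p : ℝ) ≤ y ∧ cell p = cell q with hP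
  rw [Finset.filter_filter] at hg
  have hm0 := part_ne_zero P n
  have hn0 := part_ne_zero (fun p => ¬ P p) n
  rw [lamA, ← part_mul P hn, sum_div_mul (coprime_part P n) hm0 hn0]
  have e1 : ∀ d ∈ (part P n).divisors, ∀ e ∈ (part (fun p => ¬ P p) n).divisors, a (d * e) = a d * a e := by
    intro d hd e he
    have hd' := Nat.mem_divisors.1 hd
    have he' := Nat.mem_divisors.1 he
    have hd0 : d ≠ 0 := fun h0 => hm0 (by simpa [h0] using hd'.1)
    have he0 : e ≠ 0 := fun h0 => hn0 (by simpa [h0] using he'.1)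
    by_cases hb : ∃ p ∈ e.primeFactors, y < (p : ℝ)
    · obtain ⟨p, hp, hpy⟩ := hb
      rw [h.big e ⟨p, hp, hpy⟩, mul_zero]
      refine h.big _ ⟨p, ?_, hpy⟩
      rw [Nat.primeFactors_mul hd0 he0]
      exact Finset.mem_union_right _ hp
    · refine h.mul d e hd0 he0 fun p hp r hr hpr => ?_
      have h1 : p ∈ (part P n).primeFactors := Nat.primeFactors_mono hd'.1 hm0 hp
      have h2 : r ∈ (part (fun p => ¬ P p) n).primeFactors := Nat.primeFactors_mono he'.1 hn0 hr
      rw [primeFactors_part] at h1 h2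
      have h3 := (Finset.mem_filter.1 h1).2
      have h4 := (Finset.mem_filter.1 h2).2
      refine h4 ⟨not_lt.1 fun h5 => hb ⟨r, hr, h5⟩, ?_⟩
      rw [← hpr]
      exact h3.2
  have e2 : ∑ d ∈ (part P n).divisors, ∑ e ∈ (part (fun p => ¬ P p) n).divisors, a (d * e) =
      (∑ d ∈ (part P n).divisors, a d) * ∑ e ∈ (part (fun p => ¬ P p) n).divisors, a e := by
    rw [Finset.sum_mul_sum]
    exact Finset.sum_congr rfl fun d hd => Finset.sum_congr rfl fun e he => e1 d hd e he
  rw [e2]
  have e3 : ∑ d ∈ (part P n).divisors, a d =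
      ∑ d ∈ (part P n).divisors, (ArithmeticFunction.moebius d : ℝ) := by
    refine Finset.sum_congr rfl fun d hd => ?_
    have hd' := Nat.mem_divisors.1 hd
    have hd0 : d ≠ 0 := fun h0 => hm0 (by simpa [h0] using hd'.1)
    refine h.mu d (cell q) hd0 (fun p hp => ?_) ?_
    · have h1 : p ∈ (part P n).primeFactors := Nat.primeFactors_mono hd'.1 hm0 hp
      rw [primeFactors_part] at h1
      exact (Finset.mem_filter.1 h1).2
    · obtain ⟨k, hk⟩ := hd'.1
      have hk0 : k ≠ 0 := fun h0 => hm0 (by rw [hk, h0, mul_zero])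
      have h1 : ArithmeticFunction.cardFactors (part P n) =
          ArithmeticFunction.cardFactors d + ArithmeticFunction.cardFactors k := by
        rw [hk, ArithmeticFunction.cardFactors_mul hd0 hk0]
      have h2 := cardFactors_part P n
      have h3 : ∑ p ∈ n.primeFactors.filter P, n.factorization p ≤ l (cell q) := hg
      omega
  rw [e3, sum_moebius, zero_mul]
  intro h1
  have h2 : q ∈ (part P n).primeFactors := by
    rw [primeFactors_part]
    exact Finset.mem_filter.2 ⟨hq, hqy, rfl⟩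
  rw [h1] at h2
  simp at h2

open Classical in
lemma abs_lamA_le (h : CellFn a y cell l) {n : ℕ} (hn : n ≠ 0) :
    |lamA a n| ≤ ∏ p ∈ n.primeFactors.filter (fun p : ℕ => (p : ℝ) ≤ y), ((n.factorization p : ℝ) + 1) := by
  set P : ℕ → Prop := fun p => (p : ℝ) ≤ y with hP
  have hm0 := part_ne_zero P n
  have h1 : ∏ p ∈ n.primeFactors.filter (fun p : ℕ => (p : ℝ) ≤ y), ((n.factorization p : ℝ) + 1) =
      ((part P n).divisors.card : ℝ) := by
    rw [card_divisors_part]
    push_cast
    rfl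
  rw [h1, lamA]
  refine (Finset.abs_sum_le_sum_abs _ _).trans ?_
  have h2 : ∀ m ∈ n.divisors, |a m| ≤ if m ∣ part P n then 1 else 0 := by
    intro m hm
    have hm' := Nat.mem_divisors.1 hm
    by_cases hb : ∃ p ∈ m.primeFactors, y < (p : ℝ)
    · rw [h.big m hb, abs_zero]
      split_ifs <;> norm_num
    · rw [if_pos]
      · exact h.abs_le m
      · have hc : m.Coprime (part (fun p => ¬ P p) n) := by
          have hm0' : m ≠ 0 := fun h0 => hn (by simpa [h0] using hm'.1)
          rw [← Nat.disjoint_primeFactors hm0' (part_ne_zero _ n), primeFactors_part, Finset.disjoint_left]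
          intro p hp hp'
          exact (Finset.mem_filter.1 hp').2 (not_lt.1 fun h5 => hb ⟨p, hp, h5⟩)
        have h3 : m ∣ part P n * part (fun p => ¬ P p) n := by
          rw [part_mul P hn]
          exact hm'.1
        exact hc.dvd_of_dvd_mul_right h3
  refine (Finset.sum_le_sum h2).trans ?_
  rw [← Finset.sum_filter, Finset.sum_const, nsmul_eq_mul, mul_one]
  have h4 : n.divisors.filter (fun m => m ∣ part P n) ⊆ (part P n).divisors := by
    intro m hm
    exact Nat.mem_divisors.2 ⟨(Finset.mem_filter.1 hm).2, hm0⟩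
  exact_mod_cast Finset.card_le_card h4

/-- Weight of a prime power when `B` is the set of bad cells. -/
noncomputable def Gw (y : ℝ) (cell : ℕ → ℕ) (B : Finset ℕ) (p v : ℕ) : ℝ :=
  if (p : ℝ) ≤ y then (if cell p ∈ B then ((v:ℝ) + 1) ^ 2 * Real.exp (v / 2) else 0) else 1

lemma Gw_nonneg (B : Finset ℕ) (p v : ℕ) : 0 ≤ Gw y cell B p v := by
  unfold Gw
  split_ifs
  · positivity
  · exact le_rfl
  · exact zero_le_one

/-- The bad cells of `n`. -/
noncomputable def badA (y : ℝ) (cell l : ℕ → ℕ) (J n : ℕ) : Finset ℕ :=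
  (Finset.range J).filter (fun j => l j < ∑ p ∈ (n.primeFactors.filter (fun p : ℕ => (p : ℝ) ≤ y)).filter
    (fun p => cell p = j), n.factorization p)

/-- Majorant of `(1 * a)(n)^2`. -/
theorem lamA_sq_le (h : CellFn a y cell l) {n : ℕ} (hn : n ≠ 0)
    (hJ : ∀ p ∈ n.primeFactors, (p : ℝ) ≤ y → cell p < J) :
    lamA a n ^ 2 ≤ ∑ B ∈ (Finset.range J).powerset, (∏ j ∈ B, Real.exp (-((l j : ℝ) / 2))) *
      ∏ p ∈ n.primeFactors, Gw y cell B p (n.factorization p) := by
  classical
  have hnn : ∀ B ∈ (Finset.range J).powerset, 0 ≤ (∏ j ∈ B, Real.exp (-((l j : ℝ) / 2))) *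
      ∏ p ∈ n.primeFactors, Gw y cell B p (n.factorization p) := fun B _ =>
    mul_nonneg (Finset.prod_nonneg fun _ _ => (Real.exp_pos _).le)
      (Finset.prod_nonneg fun _ _ => Gw_nonneg _ _ _)
  by_cases h0 : lamA a n = 0
  · rw [h0]
    simpa using Finset.sum_nonneg hnn
  have hbad : ∀ p ∈ n.primeFactors, (p : ℝ) ≤ y → cell p ∈ badA y cell l J n := by
    intro p hp hpy
    by_contra hc
    refine h0 (lamA_zero h hp hpy ?_)
    by_contra h3
    exact hc (Finset.mem_filter.2 ⟨Finset.mem_range.2 (hJ p hp hpy), not_le.1 h3⟩)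
  have hB : badA y cell l J n ∈ (Finset.range J).powerset :=
    Finset.mem_powerset.2 (Finset.filter_subset _ _)
  refine le_trans ?_ (Finset.single_le_sum hnn hB)
  set B := badA y cell l J n with hBdef
  set P := n.primeFactors.filter (fun p : ℕ => (p : ℝ) ≤ y) with hP
  have h1 : ∏ p ∈ n.primeFactors, Gw y cell B p (n.factorization p) =
      (∏ p ∈ P, ((n.factorization p : ℝ) + 1)) ^ 2 * Real.exp (∑ p ∈ P, (n.factorization p : ℝ) / 2) := by
    have h2 : ∏ p ∈ n.primeFactors, Gw y cell B p (n.factorization p) =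
        ∏ p ∈ n.primeFactors, (if (p : ℝ) ≤ y then
          (((n.factorization p : ℝ) + 1) ^ 2 * Real.exp ((n.factorization p : ℝ) / 2)) else 1) := by
      refine Finset.prod_congr rfl fun p hp => ?_
      unfold Gw
      by_cases hpy : (p : ℝ) ≤ y
      · rw [if_pos hpy, if_pos hpy, if_pos (hbad p hp hpy)]
      · rw [if_neg hpy, if_neg hpy]
    rw [h2, ← Finset.prod_filter, Finset.prod_mul_distrib, Finset.prod_pow, Real.exp_sum]
  have h3 : ∑ j ∈ B, (l j : ℝ) ≤ ∑ p ∈ P, (n.factorization p : ℝ) := by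
    have h4 : ∑ p ∈ P, (n.factorization p : ℝ) =
        ∑ j ∈ B, ∑ p ∈ P.filter (fun p => cell p = j), (n.factorization p : ℝ) := by
      symm
      refine Finset.sum_fiberwise_of_maps_to (fun p hp => ?_) _
      obtain ⟨hp1, hp2⟩ := Finset.mem_filter.1 hp
      exact hbad p hp1 hp2
    rw [h4]
    refine Finset.sum_le_sum fun j hj => ?_
    have := (Finset.mem_filter.1 hj).2
    exact_mod_cast this.le
  have h5 : lamA a n ^ 2 ≤ (∏ p ∈ P, ((n.factorization p : ℝ) + 1)) ^ 2 := by
    rw [← sq_abs]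
    exact pow_le_pow_left₀ (abs_nonneg _) (abs_lamA_le h hn) 2
  refine h5.trans ?_
  rw [h1]
  have h6 : 1 ≤ (∏ j ∈ B, Real.exp (-((l j : ℝ) / 2))) *
      Real.exp (∑ p ∈ P, (n.factorization p : ℝ) / 2) := by
    rw [← Real.exp_sum, ← Real.exp_add]
    refine Real.one_le_exp ?_
    rw [Finset.sum_neg_distrib, ← Finset.sum_div, ← Finset.sum_div]
    linarith
  have h7 : (0:ℝ) ≤ (∏ p ∈ P, ((n.factorization p : ℝ) + 1)) ^ 2 := sq_nonneg _
  nlinarith

end Pool.Agent.Helper66.HG
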