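import Mathlib

/-!
# Mean value theorem for Dirichlet polynomials of length at most T, no logarithm

Weight `exp (-|t - τ| / W)`, whose Fourier transform is `2 W / (1 + W² ξ²)`.
-/

open MeasureTheory Set Filter Topology

namespace Pool.Agent.Helper66.HG

/-- The weight. -/
noncomputable def wt (W t : ℝ) : ℝ := Real.exp (-(|t| / W))

lemma wt_pos (W t : ℝ) : 0 < wt W t := Real.exp_pos _

lemma wt_cont (W : ℝ) : Continuous (wt W) := by
  unfold wt
  fun_prop

/-- Fourier transform of the weight. -/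
theorem ft_wt {W : ℝ} (hW : 0 < W) (ξ : ℝ) :
    Integrable (fun t : ℝ => ((wt W t : ℝ) : ℂ) * Complex.exp (-(ξ * t : ℝ) * Complex.I)) ∧
    ∫ t : ℝ, ((wt W t : ℝ) : ℂ) * Complex.exp (-(ξ * t : ℝ) * Complex.I) =
      ((2 * W / (1 + W ^ 2 * ξ ^ 2) : ℝ) : ℂ) := by
  set f : ℝ → ℂ := fun t => ((wt W t : ℝ) : ℂ) * Complex.exp (-(ξ * t : ℝ) * Complex.I) with hf
  set a : ℂ := ⟨-(1 / W), -ξ⟩ with ha
  set b : ℂ := ⟨-(1 / W), ξ⟩ with hb
  have hare : a.re < 0 := by
    simp only [ha]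
    have : 0 < 1 / W := by positivity
    linarith
  have hbre : b.re < 0 := by
    simp only [hb]
    have : 0 < 1 / W := by positivity
    linarith
  have e1 : ∀ t ∈ Ioi (0:ℝ), f t = Complex.exp (a * t) := by
    intro t ht
    have ht' : (0:ℝ) < t := ht
    simp only [hf, wt, abs_of_pos ht']
    rw [Complex.ofReal_exp, ← Complex.exp_add]
    congr 1
    apply Complex.ext
    · simp [ha]; ring
    · simp [ha]
  have e2 : ∀ t ∈ Ioi (0:ℝ), f (-t) = Complex.exp (b * t) := by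
    intro t ht
    have ht' : (0:ℝ) < t := ht
    simp only [hf, wt, abs_neg, abs_of_pos ht']
    rw [Complex.ofReal_exp, ← Complex.exp_add]
    congr 1
    apply Complex.ext
    · simp [hb]; ring
    · simp [hb]
  have i1 : IntegrableOn f (Ioi 0) := by
    refine (integrableOn_congr_fun e1 measurableSet_Ioi).2 ?_
    exact integrableOn_exp_mul_complex_Ioi hare 0
  have i2 : IntegrableOn (fun t => f (-t)) (Ioi 0) := by
    refine (integrableOn_congr_fun e2 measurableSet_Ioi).2 ?_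
    exact integrableOn_exp_mul_complex_Ioi hbre 0
  have i3 : IntegrableOn f (Iic 0) := by
    have := (integrableOn_Ici_iff_integrableOn_Ioi (f := fun t => f (-t)) (b := (0:ℝ)) (μ := volume)).2 i2
    have h := IntegrableOn.comp_neg_Iic (c := (0:ℝ)) (f := fun t => f (-t)) (by simpa using this)
    simpa using h
  have hint : Integrable f := by
    rw [← integrableOn_univ, ← Iic_union_Ioi (a := (0:ℝ))]
    exact i3.union i1
  refine ⟨hint, ?_⟩
  rw [← intervalIntegral.integral_Iic_add_Ioi i3 i1]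
  have e3 : ∫ t in Iic (0:ℝ), f t = ∫ t in Ioi (0:ℝ), f (-t) := by
    rw [integral_comp_neg_Ioi]
    simp
  rw [e3, setIntegral_congr_fun measurableSet_Ioi e1, setIntegral_congr_fun measurableSet_Ioi e2,
    integral_exp_mul_complex_Ioi hare, integral_exp_mul_complex_Ioi hbre]
  have ha0 : a ≠ 0 := by
    intro h
    rw [h] at hare
    simp at hare
  have hb0 : b ≠ 0 := by
    intro h
    rw [h] at hbre
    simp at hbre
  simp only [Complex.ofReal_zero, mul_zero, Complex.exp_zero]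
  have h1 : -1 / b + -1 / a = -(a + b) / (a * b) := by
    field_simp
    ring
  rw [h1]
  have h2 : a + b = ((-(2 / W) : ℝ) : ℂ) := by
    apply Complex.ext
    · simp [ha, hb]; ring
    · simp [ha, hb]
  have h3 : a * b = (((1 + W ^ 2 * ξ ^ 2) / W ^ 2 : ℝ) : ℂ) := by
    apply Complex.ext
    · rw [Complex.ofReal_re]
      simp only [ha, hb, Complex.mul_re]
      field_simp
      ring
    · rw [Complex.ofReal_im]
      simp only [ha, hb, Complex.mul_im]
      ring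
  rw [h2, h3, ← Complex.ofReal_neg, ← Complex.ofReal_div]
  congr 1
  have : (0:ℝ) < 1 + W ^ 2 * ξ ^ 2 := by positivity
  field_simp

private lemma logdiff {N m n : ℕ} (hm0 : 1 ≤ m) (hn0 : 1 ≤ n) (hm : m ≤ N) (hn : n ≤ N) :
    |(m : ℝ) - n| / N ≤ |Real.log m - Real.log n| := by
  have key : ∀ {m n : ℕ}, 1 ≤ n → n ≤ m → m ≤ N → |(m : ℝ) - n| / N ≤ |Real.log m - Real.log n| := by
    intro m n hn hnm hmN
    have hn' : (1:ℝ) ≤ n := by exact_mod_cast hn
    have hm' : (n:ℝ) ≤ m := by exact_mod_cast hnm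
    have hN' : (m:ℝ) ≤ N := by exact_mod_cast hmN
    have hmpos : (0:ℝ) < m := by linarith
    have hnpos : (0:ℝ) < n := by linarith
    have h1 : Real.log (n / m) ≤ n / m - 1 := Real.log_le_sub_one_of_pos (by positivity)
    rw [Real.log_div hnpos.ne' hmpos.ne'] at h1
    have h2 : ((m:ℝ) - n) / m ≤ Real.log m - Real.log n := by
      have : ((m:ℝ) - n) / m = 1 - n / m := by field_simp
      rw [this]
      linarith
    rw [abs_of_nonneg (by linarith)]
    calc ((m:ℝ) - n) / N ≤ (m - n) / m := div_le_div_of_nonneg_left (by linarith) hmpos hN'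
      _ ≤ Real.log m - Real.log n := h2
      _ ≤ _ := le_abs_self _
  rcases le_total n m with h | h
  · exact key hn0 h hm
  · have := key hm0 h hn
    rwa [abs_sub_comm, abs_sub_comm (Real.log m)]

private lemma sum_inv_sq (N : ℕ) : ∑ k ∈ Finset.Icc 1 N, (1:ℝ) / (k:ℝ) ^ 2 ≤ 2 := by
  rcases Nat.eq_zero_or_pos N with h | h
  · subst h; simp
  have h1 : Finset.Icc 1 N = insert 1 (Finset.Ioc 1 N) := by
    ext k
    simp only [Finset.mem_Icc, Finset.mem_insert, Finset.mem_Ioc]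
    omega
  rw [h1, Finset.sum_insert (by simp)]
  have h2 := sum_Ioc_inv_sq_le_sub (α := ℝ) (k := 1) (n := N) one_ne_zero h
  have h3 : (0:ℝ) ≤ (N:ℝ)⁻¹ := by positivity
  have h4 : ∑ x ∈ Finset.Ioc 1 N, (1:ℝ) / (x:ℝ) ^ 2 = ∑ i ∈ Finset.Ioc 1 N, ((i:ℝ) ^ 2)⁻¹ :=
    Finset.sum_congr rfl fun x _ => by rw [one_div]
  have h5 : (1:ℝ) / ((1:ℕ):ℝ) ^ 2 = 1 := by norm_num
  have h6 : (((1:ℕ):ℝ))⁻¹ = 1 := by norm_num
  rw [h6] at h2
  rw [h4, h5]
  linarith

private lemma sum_off {N m : ℕ} (hm : m ∈ Finset.Icc 1 N) :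
    ∑ n ∈ (Finset.Icc 1 N).erase m, (1:ℝ) / ((m:ℝ) - n) ^ 2 ≤ 4 := by
  have h1 : (Finset.Icc 1 N).erase m = Finset.Ico 1 m ∪ Finset.Ioc m N := by
    ext k
    simp only [Finset.mem_erase, Finset.mem_Icc, Finset.mem_union, Finset.mem_Ico, Finset.mem_Ioc] at *
    omega
  have hd : Disjoint (Finset.Ico 1 m) (Finset.Ioc m N) := by
    rw [Finset.disjoint_left]
    intro k hk
    simp only [Finset.mem_Ico, Finset.mem_Ioc] at *
    omega
  rw [h1, Finset.sum_union hd]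
  have h2 : ∑ n ∈ Finset.Ico 1 m, (1:ℝ) / ((m:ℝ) - n) ^ 2 ≤ 2 := by
    refine le_trans ?_ (sum_inv_sq N)
    have : ∑ n ∈ Finset.Ico 1 m, (1:ℝ) / ((m:ℝ) - n) ^ 2 =
        ∑ k ∈ (Finset.Ico 1 m).image (fun n => m - n), (1:ℝ) / (k:ℝ) ^ 2 := by
      rw [Finset.sum_image]
      · refine Finset.sum_congr rfl fun n hn => ?_
        have := (Finset.mem_Ico.1 hn).2
        rw [Nat.cast_sub this.le]
      · intro x hx y hy hxy
        simp only [Finset.coe_Ico, Set.mem_Ico] at hx hy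
        simp only at hxy
        omega
    rw [this]
    refine Finset.sum_le_sum_of_subset_of_nonneg ?_ (fun _ _ _ => by positivity)
    intro k hk
    simp only [Finset.mem_image, Finset.mem_Ico, Finset.mem_Icc] at *
    omega
  have h3 : ∑ n ∈ Finset.Ioc m N, (1:ℝ) / ((m:ℝ) - n) ^ 2 ≤ 2 := by
    refine le_trans ?_ (sum_inv_sq N)
    have : ∑ n ∈ Finset.Ioc m N, (1:ℝ) / ((m:ℝ) - n) ^ 2 =
        ∑ k ∈ (Finset.Ioc m N).image (fun n => n - m), (1:ℝ) / (k:ℝ) ^ 2 := by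
      rw [Finset.sum_image]
      · refine Finset.sum_congr rfl fun n hn => ?_
        have := (Finset.mem_Ioc.1 hn).1
        rw [Nat.cast_sub this.le]
        congr 1
        ring
      · intro x hx y hy hxy
        simp only [Finset.coe_Ioc, Set.mem_Ioc] at hx hy
        simp only at hxy
        omega
    rw [this]
    refine Finset.sum_le_sum_of_subset_of_nonneg ?_ (fun _ _ _ => by positivity)
    intro k hk
    simp only [Finset.mem_image, Finset.mem_Ioc, Finset.mem_Icc] at *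
    omega
  linarith

private lemma sum_ker {N m : ℕ} (hm : m ∈ Finset.Icc 1 N) {W : ℝ} (hW : 0 < W) :
    ∑ n ∈ Finset.Icc 1 N, 2 * W / (1 + W ^ 2 * (Real.log m - Real.log n) ^ 2) ≤
      2 * W + 8 * (N:ℝ) ^ 2 / W := by
  have hm' := Finset.mem_Icc.1 hm
  have hN : (1:ℝ) ≤ N := by exact_mod_cast hm'.1.trans hm'.2
  rw [← Finset.add_sum_erase _ _ hm]
  have h0 : 2 * W / (1 + W ^ 2 * (Real.log m - Real.log m) ^ 2) = 2 * W := by simp
  rw [h0]
  have h1 : ∑ n ∈ (Finset.Icc 1 N).erase m, 2 * W / (1 + W ^ 2 * (Real.log m - Real.log n) ^ 2) ≤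
      ∑ n ∈ (Finset.Icc 1 N).erase m, 2 * (N:ℝ) ^ 2 / W * (1 / ((m:ℝ) - n) ^ 2) := by
    refine Finset.sum_le_sum fun n hn => ?_
    obtain ⟨hnm, hn'⟩ := Finset.mem_erase.1 hn
    have hn'' := Finset.mem_Icc.1 hn'
    have hl := logdiff hm'.1 hn''.1 hm'.2 hn''.2
    have hne : (m:ℝ) - n ≠ 0 := by
      rw [sub_ne_zero]
      exact_mod_cast hnm.symm
    have hpos : 0 < |(m:ℝ) - n| := abs_pos.2 hne
    have h2 : (|(m:ℝ) - n| / N) ^ 2 ≤ (Real.log m - Real.log n) ^ 2 := by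
      rw [← sq_abs (Real.log m - Real.log n)]
      exact pow_le_pow_left₀ (by positivity) hl 2
    have h3 : W ^ 2 * (((m:ℝ) - n) ^ 2 / N ^ 2) ≤ 1 + W ^ 2 * (Real.log m - Real.log n) ^ 2 := by
      rw [div_pow, sq_abs] at h2
      nlinarith [sq_nonneg W, h2, mul_le_mul_of_nonneg_left h2 (sq_nonneg W)]
    calc 2 * W / (1 + W ^ 2 * (Real.log m - Real.log n) ^ 2) ≤
        2 * W / (W ^ 2 * (((m:ℝ) - n) ^ 2 / N ^ 2)) :=
          div_le_div_of_nonneg_left (by positivity) (by positivity) h3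
      _ = 2 * (N:ℝ) ^ 2 / W * (1 / ((m:ℝ) - n) ^ 2) := by
          field_simp
  rw [← Finset.mul_sum] at h1
  have h4 := mul_le_mul_of_nonneg_left (sum_off hm) (show (0:ℝ) ≤ 2 * (N:ℝ) ^ 2 / W by positivity)
  have h5 : 2 * (N:ℝ) ^ 2 / W * 4 = 8 * (N:ℝ) ^ 2 / W := by ring
  linarith

/-- The mean value theorem with the weight. -/
theorem mv_wt {N : ℕ} (a : ℕ → ℂ) {W : ℝ} (hW : 0 < W) (τ : ℝ) :
    Integrable (fun t : ℝ => wt W (t - τ) *
      ‖∑ n ∈ Finset.Icc 1 N, a n * Complex.exp (-(Real.log n * t : ℝ) * Complex.I)‖ ^ 2) ∧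
    ∫ t : ℝ, wt W (t - τ) *
      ‖∑ n ∈ Finset.Icc 1 N, a n * Complex.exp (-(Real.log n * t : ℝ) * Complex.I)‖ ^ 2 ≤
      (2 * W + 8 * (N:ℝ) ^ 2 / W) * ∑ n ∈ Finset.Icc 1 N, ‖a n‖ ^ 2 := by
  set b : ℕ → ℂ := fun n => a n * Complex.exp (-(Real.log n * τ : ℝ) * Complex.I) with hb
  have hbn : ∀ n, ‖b n‖ = ‖a n‖ := by
    intro n
    simp only [hb, norm_mul]
    rw [show (-((Real.log n * τ : ℝ) : ℂ) * Complex.I) = ((-(Real.log n * τ) : ℝ) : ℂ) * Complex.I by
      push_cast; ring, Complex.norm_exp_ofReal_mul_I, mul_one]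
  set g : ℝ → ℂ := fun t => ∑ n ∈ Finset.Icc 1 N, b n * Complex.exp (-(Real.log n * t : ℝ) * Complex.I)
    with hg
  have hshift : ∀ t : ℝ, ∑ n ∈ Finset.Icc 1 N, a n * Complex.exp (-(Real.log n * t : ℝ) * Complex.I) =
      g (t - τ) := by
    intro t
    simp only [hg, hb]
    refine Finset.sum_congr rfl fun n _ => ?_
    rw [mul_assoc, ← Complex.exp_add]
    congr 2
    push_cast
    ring
  simp_rw [hshift]
  set K : ℕ → ℕ → ℝ := fun m n => 2 * W / (1 + W ^ 2 * (Real.log m - Real.log n) ^ 2) with hK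
  have hKpos : ∀ m n, 0 ≤ K m n := by
    intro m n
    simp only [hK]
    positivity
  have hKsymm : ∀ m n, K m n = K n m := by
    intro m n
    simp only [hK]
    congr 2
    ring
  have hexp : ∀ t : ℝ, ((wt W t * ‖g t‖ ^ 2 : ℝ) : ℂ) =
      ∑ m ∈ Finset.Icc 1 N, ∑ n ∈ Finset.Icc 1 N, b m * (starRingEnd ℂ) (b n) *
        (((wt W t : ℝ) : ℂ) * Complex.exp (-((Real.log m - Real.log n) * t : ℝ) * Complex.I)) := by
    intro t
    rw [Complex.ofReal_mul, Complex.ofReal_pow, ← Complex.mul_conj', hg]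
    simp only [map_sum, map_mul]
    rw [Finset.sum_mul_sum, Finset.mul_sum]
    refine Finset.sum_congr rfl fun m _ => ?_
    rw [Finset.mul_sum]
    refine Finset.sum_congr rfl fun n _ => ?_
    have h1 : (starRingEnd ℂ) (Complex.exp (-((Real.log n * t : ℝ) : ℂ) * Complex.I)) =
        Complex.exp (((Real.log n * t : ℝ) : ℂ) * Complex.I) := by
      rw [← Complex.exp_conj]
      congr 1
      rw [map_mul, map_neg, Complex.conj_ofReal, Complex.conj_I]
      ring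
    rw [h1]
    have h2 : Complex.exp (-(((Real.log m - Real.log n) * t : ℝ) : ℂ) * Complex.I) =
        Complex.exp (-((Real.log m * t : ℝ) : ℂ) * Complex.I) *
          Complex.exp (((Real.log n * t : ℝ) : ℂ) * Complex.I) := by
      rw [← Complex.exp_add]
      congr 1
      push_cast
      ring
    rw [h2]
    ring
  have hint : ∀ m n : ℕ, Integrable (fun t : ℝ => b m * (starRingEnd ℂ) (b n) *
        (((wt W t : ℝ) : ℂ) * Complex.exp (-((Real.log m - Real.log n) * t : ℝ) * Complex.I))) :=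
    fun m n => (ft_wt hW _).1.const_mul _
  have hI : Integrable (fun t : ℝ => ((wt W t * ‖g t‖ ^ 2 : ℝ) : ℂ)) := by
    simp_rw [hexp]
    exact integrable_finsetSum _ fun m _ => integrable_finsetSum _ fun n _ => hint m n
  have hI' : Integrable (fun t : ℝ => wt W t * ‖g t‖ ^ 2) := by
    have := hI.re
    simpa only [RCLike.re_to_complex, Complex.ofReal_re] using this
  refine ⟨hI'.comp_sub_right τ, ?_⟩
  rw [integral_sub_right_eq_self (fun t => wt W t * ‖g t‖ ^ 2) τ]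
  have hval : ((∫ t : ℝ, wt W t * ‖g t‖ ^ 2 : ℝ) : ℂ) =
      ∑ m ∈ Finset.Icc 1 N, ∑ n ∈ Finset.Icc 1 N, b m * (starRingEnd ℂ) (b n) * ((K m n : ℝ) : ℂ) := by
    rw [← integral_complex_ofReal]
    simp_rw [hexp]
    rw [integral_finsetSum _ fun m _ => integrable_finsetSum _ fun n _ => hint m n]
    refine Finset.sum_congr rfl fun m _ => ?_
    rw [integral_finsetSum _ fun n _ => hint m n]
    refine Finset.sum_congr rfl fun n _ => ?_
    rw [integral_const_mul, (ft_wt hW _).2]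
  have h1 : (∫ t : ℝ, wt W t * ‖g t‖ ^ 2) ≤
      ∑ m ∈ Finset.Icc 1 N, ∑ n ∈ Finset.Icc 1 N, ‖b m‖ * ‖b n‖ * K m n := by
    refine (le_abs_self _).trans ?_
    rw [← Real.norm_eq_abs, ← Complex.norm_real, hval]
    refine (norm_sum_le _ _).trans (Finset.sum_le_sum fun m _ => ?_)
    refine (norm_sum_le _ _).trans (Finset.sum_le_sum fun n _ => ?_)
    rw [norm_mul, norm_mul, RCLike.norm_conj, Complex.norm_real, Real.norm_of_nonneg (hKpos m n)]
  refine h1.trans ?_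
  have h2 : ∑ m ∈ Finset.Icc 1 N, ∑ n ∈ Finset.Icc 1 N, ‖b m‖ * ‖b n‖ * K m n ≤
      ∑ m ∈ Finset.Icc 1 N, ∑ n ∈ Finset.Icc 1 N, (‖b m‖ ^ 2 * K m n / 2 + ‖b n‖ ^ 2 * K m n / 2) := by
    refine Finset.sum_le_sum fun m _ => Finset.sum_le_sum fun n _ => ?_
    have := hKpos m n
    nlinarith [sq_nonneg (‖b m‖ - ‖b n‖), mul_nonneg this (sq_nonneg (‖b m‖ - ‖b n‖))]
  refine h2.trans ?_
  simp_rw [Finset.sum_add_distrib]
  have h3 : ∑ m ∈ Finset.Icc 1 N, ∑ n ∈ Finset.Icc 1 N, ‖b n‖ ^ 2 * K m n / 2 =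
      ∑ m ∈ Finset.Icc 1 N, ∑ n ∈ Finset.Icc 1 N, ‖b m‖ ^ 2 * K m n / 2 := by
    rw [Finset.sum_comm]
    refine Finset.sum_congr rfl fun m _ => Finset.sum_congr rfl fun n _ => ?_
    rw [hKsymm]
  rw [h3, ← two_mul, Finset.mul_sum, Finset.mul_sum]
  refine Finset.sum_le_sum fun m hm => ?_
  have h4 := sum_ker hm hW
  have h5 : 2 * ∑ n ∈ Finset.Icc 1 N, ‖b m‖ ^ 2 * K m n / 2 = ‖b m‖ ^ 2 * ∑ n ∈ Finset.Icc 1 N, K m n := by
    rw [Finset.mul_sum, Finset.mul_sum]
    refine Finset.sum_congr rfl fun n _ => by ring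
  rw [h5, hbn, mul_comm]
  exact mul_le_mul_of_nonneg_right h4 (sq_nonneg _)

end Pool.Agent.Helper66.HG
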