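import Mathlib

/-!
# Upper bounds of Mertens type
-/

open Finset

namespace Pool.Agent.Helper66.HG

/-- `∑_{p ≤ N} log p / p ≤ log N + log 4`. -/
theorem mer_log {N : ℕ} (hN : 1 ≤ N) :
    ∑ p ∈ (Finset.Icc 1 N).filter Nat.Prime, Real.log p / p ≤ Real.log N + Real.log 4 := by
  have hNR : (1:ℝ) ≤ N := by exact_mod_cast hN
  have hNpos : (0:ℝ) < N := by linarith
  have hset : (Finset.Icc 1 N).filter Nat.Prime = (Finset.Ioc 0 ⌊(N:ℝ)⌋₊).filter Nat.Prime := by
    rw [Nat.floor_natCast]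
    rfl
  have h1 : ∑ p ∈ (Finset.Icc 1 N).filter Nat.Prime, Real.log p * ((N / p : ℕ) : ℝ) ≤ N * Real.log N := by
    have e1 : ∀ p ∈ (Finset.Icc 1 N).filter Nat.Prime, Real.log p * ((N / p : ℕ) : ℝ) =
        ∑ n ∈ Finset.Ioc 0 N, if p ∣ n then Real.log p else 0 := by
      intro p _
      rw [← Finset.sum_filter, Finset.sum_const, Nat.Ioc_filter_dvd_card_eq_div, nsmul_eq_mul, mul_comm]
    rw [Finset.sum_congr rfl e1, Finset.sum_comm]
    have e2 : ∀ n ∈ Finset.Ioc 0 N, ∑ p ∈ (Finset.Icc 1 N).filter Nat.Prime, (if p ∣ n then Real.log p else 0) ≤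
        Real.log N := by
      intro n hn
      have hn' := Finset.mem_Ioc.1 hn
      rw [← Finset.sum_filter]
      have e3 : ((Finset.Icc 1 N).filter Nat.Prime).filter (fun p => p ∣ n) = n.primeFactors := by
        ext p
        simp only [Finset.mem_filter, Finset.mem_Icc, Nat.mem_primeFactors]
        constructor
        · rintro ⟨⟨_, hp⟩, hd⟩
          exact ⟨hp, hd, by omega⟩
        · rintro ⟨hp, hd, _⟩
          exact ⟨⟨⟨hp.one_lt.le, (Nat.le_of_dvd hn'.1 hd).trans hn'.2⟩, hp⟩, hd⟩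
      rw [e3, ← Real.log_prod (fun p hp => by
        have := (Nat.prime_of_mem_primeFactors hp).pos
        positivity), ← Nat.cast_prod]
      refine Real.log_le_log ?_ ?_
      · have : 0 < ∏ p ∈ n.primeFactors, p :=
          Finset.prod_pos fun p hp => (Nat.prime_of_mem_primeFactors hp).pos
        exact_mod_cast this
      · have h2 := Nat.le_of_dvd hn'.1 (Nat.prod_primeFactors_dvd n)
        exact_mod_cast h2.trans hn'.2
    refine (Finset.sum_le_sum e2).trans (le_of_eq ?_)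
    simp
  have h2 : ∑ p ∈ (Finset.Icc 1 N).filter Nat.Prime, Real.log p ≤ Real.log 4 * N := by
    rw [hset]
    exact Chebyshev.theta_le_log4_mul_x hNpos.le
  have h3 : ∑ p ∈ (Finset.Icc 1 N).filter Nat.Prime, (N:ℝ) * (Real.log p / p) ≤
      ∑ p ∈ (Finset.Icc 1 N).filter Nat.Prime, (Real.log p * ((N / p : ℕ) : ℝ) + Real.log p) := by
    refine Finset.sum_le_sum fun p hp => ?_
    have hpp := (Finset.mem_filter.1 hp).2
    have hp0 : (0:ℝ) < p := by exact_mod_cast hpp.pos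
    have hl : 0 ≤ Real.log p := Real.log_nonneg (by exact_mod_cast hpp.one_lt.le)
    have h4 : (N:ℝ) / p ≤ ((N / p : ℕ) : ℝ) + 1 := by
      rw [div_le_iff₀ hp0]
      have := Nat.lt_div_mul_add hpp.pos (a := N)
      have h5 : N ≤ (N / p + 1) * p := by
        rw [add_mul, one_mul]
        exact this.le
      exact_mod_cast h5
    calc (N:ℝ) * (Real.log p / p) = Real.log p * (N / p) := by ring
      _ ≤ Real.log p * (((N / p : ℕ) : ℝ) + 1) := mul_le_mul_of_nonneg_left h4 hl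
      _ = _ := by ring
  rw [Finset.sum_add_distrib, ← Finset.mul_sum] at h3
  have h6 : (N:ℝ) * ∑ p ∈ (Finset.Icc 1 N).filter Nat.Prime, Real.log p / p ≤
      N * (Real.log N + Real.log 4) := by linarith
  exact le_of_mul_le_mul_left h6 hNpos

/-- Primes of a set `S` with `e^E < p`, `p ≤ N`: `∑ 1/p ≤ (log N + log 4) / E`. -/
theorem mer_tail {N : ℕ} (hN : 1 ≤ N) {E : ℝ} (hE : 0 < E) (S : Finset ℕ)
    (hS : ∀ p ∈ S, p.Prime ∧ p ≤ N ∧ E ≤ Real.log p) :
    ∑ p ∈ S, 1 / (p:ℝ) ≤ (Real.log N + Real.log 4) / E := by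
  rw [le_div_iff₀ hE, Finset.sum_mul]
  refine le_trans ?_ (mer_log hN)
  have hsub : S ⊆ (Finset.Icc 1 N).filter Nat.Prime := fun p hp => by
    obtain ⟨h1, h2, _⟩ := hS p hp
    exact Finset.mem_filter.2 ⟨Finset.mem_Icc.2 ⟨h1.one_lt.le, h2⟩, h1⟩
  refine le_trans (Finset.sum_le_sum fun p hp => ?_) (Finset.sum_le_sum_of_subset_of_nonneg hsub fun p hp _ => ?_)
  · obtain ⟨h1, h2, h3⟩ := hS p hp
    have hp0 : (0:ℝ) < p := by exact_mod_cast h1.pos
    rw [one_div, inv_mul_eq_div]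
    exact div_le_div_of_nonneg_right h3 hp0.le
  · have h1 := (Finset.mem_filter.1 hp).2
    exact div_nonneg (Real.log_nonneg (by exact_mod_cast h1.one_lt.le)) (Nat.cast_nonneg _)

end Pool.Agent.Helper66.HG
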